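import Pool.Agent.Y531.Prod

/-!
# The lopsided frame
-/

set_option autoImplicit false
set_option linter.unusedSectionVars false
set_option maxHeartbeats 1000000

namespace Pool.Agent.Y531

open Finset Pool.Agent.W942

/-- The edges: `h` between any two labels of the two sides. -/
abbrev Ed (a b h : ℕ) := Fin b × Fin a × Fin h

/-- Each edge carries one bit of its left label (in `u`) and one bit of its right label (in `v`). -/
noncomputable def bitFrame (a b h : ℕ) : Frame (Fin b ⊕ Fin a) (Ed a b h → Bool) (Ed a b h → Bool) where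
  same := Sum.elim (fun i u _ u' _ => ∀ e : Ed a b h, e.1 = i → u e = u' e)
    (fun j _ v _ v' => ∀ e : Ed a b h, e.2.1 = j → v e = v' e)
  w := Sum.elim (fun _ => √2 ^ (a * h)) (fun _ => √2 ^ (b * h))
  w_pos := by rintro (i | i) <;> simp

/-- The number of left labels in a set. -/
noncomputable def lef {a b : ℕ} (S : Finset (Fin b ⊕ Fin a)) : ℕ := (S.preimage Sum.inl Sum.inl_injective.injOn).card
/-- The number of right labels in a set. -/
noncomputable def rig {a b : ℕ} (S : Finset (Fin b ⊕ Fin a)) : ℕ := (S.preimage Sum.inr Sum.inr_injective.injOn).card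

theorem lef_add_rig {a b : ℕ} (S : Finset (Fin b ⊕ Fin a)) : lef S + rig S = S.card := by
  have h1 : S = (S.preimage Sum.inl Sum.inl_injective.injOn).disjSum
      (S.preimage Sum.inr Sum.inr_injective.injOn) := by
    ext x
    rcases x with x | x <;> simp
  conv_rhs => rw [h1, Finset.card_disjSum]
  rfl

theorem wt_bitFrame {a b h : ℕ} (S : Finset (Fin b ⊕ Fin a)) :
    (bitFrame a b h).wt S = √2 ^ (a * h * lef S + b * h * rig S) := by
  have h1 : S = (S.preimage Sum.inl Sum.inl_injective.injOn).disjSum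
      (S.preimage Sum.inr Sum.inr_injective.injOn) := by
    ext x
    rcases x with x | x <;> simp
  rw [Frame.wt]
  conv_lhs => rw [h1, Finset.prod_disjSum]
  simp only [bitFrame, Sum.elim_inl, Sum.elim_inr, Finset.prod_const]
  rw [pow_add, pow_mul _ (a * h), pow_mul _ (b * h)]
  rfl

variable {F : Type*} [Field F]

theorem rk_left {a b h : ℕ} {S : Finset (Fin b ⊕ Fin a)}
    {g : (Ed a b h → Bool) → (Ed a b h → Bool) → F} (hg : (bitFrame a b h).Loc S g) :
    HasRk g (2 ^ (a * h * lef S)) := by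
  classical
  let π : (Ed a b h → Bool) → ((S.preimage Sum.inl Sum.inl_injective.injOn) × Fin a × Fin h → Bool) :=
    fun u p => u (p.1.1, p.2.1, p.2.2)
  have h1 := HasRk.of_left π (M := g) (fun u u' v hu => hg u v u' v (by
    rintro (i | j) hi
    · intro e he
      have hmem : i ∈ S.preimage Sum.inl Sum.inl_injective.injOn := Finset.mem_preimage.2 hi
      have := congrFun hu (⟨i, hmem⟩, e.2.1, e.2.2)
      obtain ⟨e1, e2, e3⟩ := e
      simp only at he
      subst he
      exact this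
    · intro e _
      rfl))
  have h2 : Fintype.card ((S.preimage Sum.inl Sum.inl_injective.injOn) × Fin a × Fin h → Bool) =
      2 ^ (a * h * lef S) := by
    rw [Fintype.card_fun, Fintype.card_bool, Fintype.card_prod, Fintype.card_prod, Fintype.card_fin,
      Fintype.card_fin, Fintype.card_coe]
    congr 1
    rw [lef]
    ring
  rw [h2] at h1
  exact h1

theorem rk_right {a b h : ℕ} {S : Finset (Fin b ⊕ Fin a)}
    {g : (Ed a b h → Bool) → (Ed a b h → Bool) → F} (hg : (bitFrame a b h).Loc S g) :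
    HasRk g (2 ^ (b * h * rig S)) := by
  classical
  let π : (Ed a b h → Bool) → ((S.preimage Sum.inr Sum.inr_injective.injOn) × Fin b × Fin h → Bool) :=
    fun v p => v (p.2.1, p.1.1, p.2.2)
  have h1 := HasRk.of_right π (M := g) (fun u v v' hu => hg u v u v' (by
    rintro (i | j) hi
    · intro e _
      rfl
    · intro e he
      have hmem : j ∈ S.preimage Sum.inr Sum.inr_injective.injOn := Finset.mem_preimage.2 hi
      have := congrFun hu (⟨j, hmem⟩, e.1, e.2.2)
      obtain ⟨e1, e2, e3⟩ := e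
      simp only at he
      subst he
      exact this))
  have h2 : Fintype.card ((S.preimage Sum.inr Sum.inr_injective.injOn) × Fin b × Fin h → Bool) =
      2 ^ (b * h * rig S) := by
    rw [Fintype.card_fun, Fintype.card_bool, Fintype.card_prod, Fintype.card_prod, Fintype.card_fin,
      Fintype.card_fin, Fintype.card_coe]
    congr 1
    rw [rig]
    ring
  rw [h2] at h1
  exact h1

theorem rk_min {a b h : ℕ} {S : Finset (Fin b ⊕ Fin a)}
    {g : (Ed a b h → Bool) → (Ed a b h → Bool) → F} (hg : (bitFrame a b h).Loc S g) :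
    HasRkR g ((2:ℝ) ^ (min (a * h * lef S) (b * h * rig S))) := by
  rcases le_total (a * h * lef S) (b * h * rig S) with h1 | h1
  · rw [min_eq_left h1]
    exact ⟨_, rk_left hg, by push_cast; exact le_rfl⟩
  · rw [min_eq_right h1]
    exact ⟨_, rk_right hg, by push_cast; exact le_rfl⟩

theorem two_pow_min (x y : ℕ) : (2:ℝ) ^ (min x y) ≤ √2 ^ (x + y) := by
  have h1 : (2:ℝ) = √2 ^ 2 := by norm_num
  conv_lhs => rw [h1]
  rw [← pow_mul]
  refine pow_le_pow_right₀ ?_ ?_
  · rw [show (1:ℝ) = √1 by simp]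
    exact Real.sqrt_le_sqrt (by norm_num)
  · have := min_le_left x y
    have := min_le_right x y
    omega

theorem triv_bitFrame (a b h : ℕ) : Triv F (bitFrame a b h) := by
  intro S g hg
  refine (rk_min hg).mono ?_
  rw [wt_bitFrame]
  exact two_pow_min _ _

/-- The arithmetic form of a scale. -/
def NumScale (a b h T : ℕ) (z : ℝ) : Prop :=
  ∀ u v : ℕ, 0 < u + v → u + v < T →
    (2:ℝ) ^ (min (a * h * u) (b * h * v)) ≤ z ^ (u + v) * √2 ^ (a * h * u + b * h * v)

theorem scale_of_num {a b h T : ℕ} {z : ℝ} (hz : NumScale a b h T z) :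
    Scale F (bitFrame a b h) T z := by
  intro S g hS hT hg
  refine (rk_min hg).mono ?_
  rw [wt_bitFrame]
  have h1 := lef_add_rig S
  have h2 := Finset.card_pos.2 hS
  have h3 := hz (lef S) (rig S) (by omega) (by omega)
  rw [h1] at h3
  exact h3

/-- The gap. -/
theorem exists_gap (T : ℕ) : ∃ γ : ℝ, 0 < γ ∧ γ ≤ 1 ∧ ∀ u v : ℕ, 0 < u + v → u + v < T →
    γ ≤ |(u:ℝ) - √2 / 2 * v| := by
  have key : ∀ s : Finset (ℕ × ℕ), (∀ p ∈ s, 0 < p.1 + p.2) → ∃ γ : ℝ, 0 < γ ∧ γ ≤ 1 ∧
      ∀ p ∈ s, γ ≤ |(p.1:ℝ) - √2 / 2 * p.2| := by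
    intro s
    induction s using Finset.induction_on with
    | empty => intro _; exact ⟨1, one_pos, le_rfl, fun p hp => absurd hp (Finset.notMem_empty p)⟩
    | insert q s _ ih =>
      intro hs
      obtain ⟨γ, h1, h1', h2⟩ := ih fun p hp => hs p (Finset.mem_insert_of_mem hp)
      have h3 : 0 < |(q.1:ℝ) - √2 / 2 * q.2| := by
        rw [abs_pos]
        intro h0
        have h4 := hs q (Finset.mem_insert_self q s)
        by_cases hq : q.2 = 0
        · rw [hq] at h0 h4
          have : (q.1:ℝ) = 0 := by simpa using h0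
          have : q.1 = 0 := by exact_mod_cast this
          omega
        · have hq' : (q.2:ℝ) ≠ 0 := by exact_mod_cast hq
          apply irrational_sqrt_two
          refine ⟨2 * q.1 / q.2, ?_⟩
          push_cast
          rw [div_eq_iff hq']
          linarith
      refine ⟨min γ |(q.1:ℝ) - √2 / 2 * q.2|, lt_min h1 h3, (min_le_left _ _).trans h1', ?_⟩
      intro p hp
      rcases Finset.mem_insert.1 hp with h | h
      · subst h; exact min_le_right _ _
      · exact (min_le_left _ _).trans (h2 p h)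
  obtain ⟨γ, h1, h1', h2⟩ := key
    (((Finset.range T) ×ˢ (Finset.range T)).filter fun p => 0 < p.1 + p.2)
    (fun p hp => (Finset.mem_filter.1 hp).2)
  refine ⟨γ, h1, h1', fun u v h3 h4 => h2 (u, v) ?_⟩
  rw [Finset.mem_filter, Finset.mem_product, Finset.mem_range, Finset.mem_range]
  exact ⟨⟨by simp only; omega, by simp only; omega⟩, h3⟩

theorem two_pow_min_rpow (x y : ℕ) :
    (2:ℝ) ^ (min x y) = (2:ℝ) ^ (-|(x:ℝ) - y| / 2) * √2 ^ (x + y) := by
  have h1 : √2 ^ (x + y) = (2:ℝ) ^ (((x:ℝ) + y) / 2) := by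
    rw [← Real.rpow_natCast, Real.sqrt_eq_rpow, ← Real.rpow_mul (by norm_num)]
    congr 1
    push_cast
    ring
  rw [h1, ← Real.rpow_add (by norm_num), ← Real.rpow_natCast]
  congr 1
  rcases le_total x y with h | h
  · have h' : (x:ℝ) ≤ y := by exact_mod_cast h
    rw [min_eq_left h, abs_of_nonpos (by linarith)]
    ring
  · have h' : (y:ℝ) ≤ x := by exact_mod_cast h
    rw [min_eq_right h, abs_of_nonneg (by linarith)]
    ring

/-- The sequence of thresholds. -/
noncomputable def thr (γ : ℕ → ℝ) (L b₀ : ℕ) : ℕ → ℕ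
  | 0 => b₀
  | k + 1 => thr γ L b₀ k + ⌈4 * ((thr γ L b₀ k : ℝ) + 1) * L / γ (thr γ L b₀ k)⌉₊

/-- **The thresholds.** -/
theorem exists_thresholds (K L b₀ : ℕ) : ∃ (a b : ℕ) (T : ℕ → ℕ), 0 < a ∧ 0 < b ∧ b ≤ a ∧
    T 0 = b₀ ∧ Monotone T ∧ T K ≤ a + b ∧
    ∀ h k, k < K → ∃ z : ℝ, 0 ≤ z ∧ z ≤ 1 ∧ NumScale a b h (T k) z ∧
      z ^ (T (k + 1)) ≤ ((2:ℝ) ^ (a * h * L))⁻¹ := by
  choose γ hγ0 hγ1 hγ using exists_gap
  obtain ⟨T, hT0, hTs⟩ : ∃ T : ℕ → ℕ, T 0 = b₀ ∧
      ∀ k, T (k + 1) = T k + ⌈4 * ((T k : ℝ) + 1) * L / γ (T k)⌉₊ :=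
    ⟨thr γ L b₀, rfl, fun k => rfl⟩
  have hmono : Monotone T := monotone_nat_of_le_succ fun k => by rw [hTs]; omega
  obtain ⟨A, hA⟩ : ∃ A : ℕ, ∀ k < K, (2 * (T k) / γ (T k) : ℝ) ≤ A := by
    obtain ⟨A, hA⟩ := (Finset.image (fun k => ⌈(2 * (T k) / γ (T k) : ℝ)⌉₊) (Finset.range K)).bddAbove
    refine ⟨A, fun k hk => (Nat.le_ceil _).trans ?_⟩
    have := hA (Finset.mem_coe.2 (Finset.mem_image_of_mem
      (fun k => ⌈(2 * (T k) / γ (T k) : ℝ)⌉₊) (Finset.mem_range.2 hk)))
    exact_mod_cast this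
  set a := A + T K + 2 with ha
  set b := ⌊√2 / 2 * (a:ℝ)⌋₊ with hb
  have hs2 : √2 ≤ 2 := by
    rw [Real.sqrt_le_left (by norm_num)]; norm_num
  have hs2' : 1 ≤ √2 := by
    rw [show (1:ℝ) = √1 by simp]
    exact Real.sqrt_le_sqrt (by norm_num)
  have ha2 : (2:ℝ) ≤ a := by
    rw [ha]; push_cast
    have : (0:ℝ) ≤ A := Nat.cast_nonneg _
    have : (0:ℝ) ≤ T K := Nat.cast_nonneg _
    linarith
  have hαa : 0 ≤ √2 / 2 * (a:ℝ) := by positivity
  refine ⟨a, b, T, by omega, ?_, ?_, hT0, hmono, by omega, ?_⟩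
  · apply Nat.floor_pos.2
    nlinarith
  · have h1 : (b:ℝ) ≤ √2 / 2 * a := Nat.floor_le hαa
    have h2 : (b:ℝ) ≤ a := by nlinarith
    exact_mod_cast h2
  · intro h k hk
    set t := T k with ht
    set g := γ t with hg
    have hg0 : 0 < g := hγ0 t
    have ht0 : (0:ℝ) ≤ t := Nat.cast_nonneg _
    have ha0 : (0:ℝ) < a := by linarith
    have hh0 : (0:ℝ) ≤ h := Nat.cast_nonneg _
    refine ⟨(2:ℝ) ^ (-(a * h * g / (4 * (t + 1))) : ℝ), by positivity, ?_, ?_, ?_⟩
    · exact Real.rpow_le_one_of_one_le_of_nonpos (by norm_num)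
        (by have : 0 ≤ (a * h * g / (4 * (t + 1)) : ℝ) := by positivity
            linarith)
    · intro u v huv huv'
      rw [two_pow_min_rpow, ← Real.rpow_natCast _ (u + v), ← Real.rpow_mul (by norm_num)]
      refine mul_le_mul_of_nonneg_right ?_ (by positivity)
      refine Real.rpow_le_rpow_of_exponent_le (by norm_num) ?_
      have h1 : a * g / 2 ≤ |(a:ℝ) * u - b * v| := by
        have h2 := hγ t u v huv huv'
        have h3 : (a:ℝ) * |(u:ℝ) - √2 / 2 * v| = |(a:ℝ) * u - √2 / 2 * a * v| := by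
          rw [← abs_of_pos ha0, ← abs_mul, abs_of_pos ha0]
          congr 1
          ring
        have h4 : |(a:ℝ) * u - √2 / 2 * a * v| ≤ |(a:ℝ) * u - b * v| + v := by
          have h5 : (a:ℝ) * u - √2 / 2 * a * v = (a * u - b * v) + (b - √2 / 2 * a) * v := by ring
          rw [h5]
          refine (abs_add_le _ _).trans ?_
          have h6 : |((b:ℝ) - √2 / 2 * a) * v| ≤ v := by
            rw [abs_mul, abs_of_nonneg (Nat.cast_nonneg v : (0:ℝ) ≤ v)]
            refine mul_le_of_le_one_left (Nat.cast_nonneg v) ?_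
            have h7 : (b:ℝ) ≤ √2 / 2 * a := Nat.floor_le hαa
            have h8 : √2 / 2 * (a:ℝ) < b + 1 := Nat.lt_floor_add_one _
            rw [abs_le]
            constructor <;> linarith
          linarith
        have h5 : (v:ℝ) ≤ t := by
          have : v ≤ t := by omega
          exact_mod_cast this
        have h6 : 2 * (t:ℝ) / g ≤ a := by
          refine (hA k hk).trans ?_
          rw [ha]; push_cast
          have : (0:ℝ) ≤ T K := Nat.cast_nonneg _
          linarith
        rw [div_le_iff₀ hg0] at h6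
        have h7 : (a:ℝ) * g ≤ a * |(u:ℝ) - √2 / 2 * v| := by gcongr
        rw [h3] at h7
        linarith
      have h2 : |((a * h * u : ℕ) : ℝ) - ((b * h * v : ℕ) : ℝ)| = h * |(a:ℝ) * u - b * v| := by
        push_cast
        rw [← abs_of_nonneg hh0, ← abs_mul, abs_of_nonneg hh0]
        congr 1
        ring
      rw [h2]
      have h3 : (a * h * g / (4 * (t + 1)) : ℝ) * ((u + v : ℕ) : ℝ) ≤ a * h * g / 4 := by
        have h4 : ((u + v : ℕ) : ℝ) ≤ t + 1 := by
          have : u + v ≤ t + 1 := by omega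
          exact_mod_cast this
        calc (a * h * g / (4 * (t + 1)) : ℝ) * ((u + v : ℕ) : ℝ)
            ≤ (a * h * g / (4 * (t + 1)) : ℝ) * (t + 1) := by gcongr
          _ = a * h * g / 4 := by field_simp
      have h4 : (h:ℝ) * (a * g / 2) ≤ h * |(a:ℝ) * u - b * v| := by gcongr
      rw [neg_mul]
      linarith
    · rw [← Real.rpow_natCast _ (T (k + 1)), ← Real.rpow_mul (by norm_num),
        ← Real.rpow_natCast _ (a * h * L), ← Real.rpow_neg (by norm_num)]
      refine Real.rpow_le_rpow_of_exponent_le (by norm_num) ?_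
      rw [neg_mul, neg_le_neg_iff]
      have h1 : (4 * (t + 1) * L / g : ℝ) ≤ T (k + 1) := by
        rw [hTs]
        push_cast
        have := Nat.le_ceil (4 * (t + 1) * L / g : ℝ)
        linarith
      calc ((a * h * L : ℕ) : ℝ) = (a * h * g / (4 * (t + 1)) : ℝ) * (4 * (t + 1) * L / g) := by
            push_cast
            field_simp
        _ ≤ _ := by gcongr

end Pool.Agent.Y531
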