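import Pool.Agent.Y531.Inj

/-!
# One block of the gadget
-/

set_option autoImplicit false
set_option linter.unusedSectionVars false
set_option maxHeartbeats 1000000

namespace Pool.Agent.Y531

open Finset

/-- The two nonzero letters. -/
def code (t : Bool) : Fin 3 := if t then 1 else 2

/-- The vector `δ_(code t) - δ_0`. -/
def chi (t : Bool) (s : Fin 3) : ℤ := if s = code t then 1 else if s = 0 then -1 else 0

theorem letter_sum (w : Bool) (p q : Prop) [Decidable p] [Decidable q] :
    ∑ s : Fin 3, chi w s * ((if p then (if s = code w then 1 else 0) else 1) *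
      (if q then (if s = code (!w) then 1 else 0) else 1)) = if p ∧ ¬ q then 1 else 0 := by
  rw [Fin.sum_univ_three]
  cases w <;> by_cases hp : p <;> by_cases hq : q <;> simp [hp, hq, chi, code]

theorem block_sum {P E : Type*} [Fintype P] [DecidableEq P] [DecidableEq E] (κ : P → E)
    (hκ : Function.Injective κ) (w : E → Bool) (M : Finset (E × Bool)) :
    (∑ α : P → Fin 3, (∏ p, chi (w (κ p)) (α p)) *
      ∏ r ∈ M, (if ∃ p, κ p = r.1 ∧ α p = code r.2 then (1:ℤ) else 0)) =
      if M = Finset.univ.image (fun p => (κ p, w (κ p))) then 1 else 0 := by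
  classical
  by_cases hA : ∃ r ∈ M, ∀ p, κ p ≠ r.1
  · obtain ⟨r, hr, hr'⟩ := hA
    rw [if_neg]
    · refine Finset.sum_eq_zero fun α _ => ?_
      rw [Finset.prod_eq_zero hr, mul_zero]
      rw [if_neg]
      rintro ⟨p, hp, _⟩
      exact hr' p hp
    · intro h
      rw [h, Finset.mem_image] at hr
      obtain ⟨p, _, hp⟩ := hr
      exact hr' p (by rw [← hp])
  · push Not at hA
    have h1 : ∀ α : P → Fin 3, ∏ r ∈ M, (if ∃ p, κ p = r.1 ∧ α p = code r.2 then (1:ℤ) else 0) =
        ∏ p, ((if (κ p, w (κ p)) ∈ M then (if α p = code (w (κ p)) then 1 else 0) else 1) *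
          (if (κ p, !(w (κ p))) ∈ M then (if α p = code (!(w (κ p))) then 1 else 0) else 1)) := by
      intro α
      have h2 : ∀ p : P, ((if (κ p, w (κ p)) ∈ M then (if α p = code (w (κ p)) then (1:ℤ) else 0) else 1) *
          (if (κ p, !(w (κ p))) ∈ M then (if α p = code (!(w (κ p))) then 1 else 0) else 1)) =
          ∏ t : Bool, (if (κ p, t) ∈ M then (if α p = code t then (1:ℤ) else 0) else 1) := by
        intro p
        rw [Fintype.prod_bool]
        cases w (κ p)
        · rw [mul_comm]; rfl
        · rfl
      rw [Finset.prod_congr rfl fun p _ => h2 p, ← Fintype.prod_prod_type', ← Finset.prod_filter]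
      symm
      refine Finset.prod_bij (fun q _ => (κ q.1, q.2)) ?_ ?_ ?_ ?_
      · intro q hq
        exact (Finset.mem_filter.1 hq).2
      · intro q _ q' _ h
        rw [Prod.mk.injEq] at h
        exact Prod.ext (hκ h.1) h.2
      · intro r hr
        obtain ⟨p, hp⟩ := hA r hr
        refine ⟨(p, r.2), Finset.mem_filter.2 ⟨Finset.mem_univ _, ?_⟩, ?_⟩
        · simp only [hp]; exact hr
        · simp only [hp]
      · intro q _
        refine if_congr ?_ rfl rfl
        constructor
        · intro h
          exact ⟨q.1, rfl, h⟩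
        · rintro ⟨p, hp, hp'⟩
          rw [← hκ hp]; exact hp'
    have h3 : ∀ α : P → Fin 3, (∏ p, chi (w (κ p)) (α p)) *
        ∏ r ∈ M, (if ∃ p, κ p = r.1 ∧ α p = code r.2 then (1:ℤ) else 0) =
        ∏ p, (chi (w (κ p)) (α p) *
        ((if (κ p, w (κ p)) ∈ M then (if α p = code (w (κ p)) then 1 else 0) else 1) *
          (if (κ p, !(w (κ p))) ∈ M then (if α p = code (!(w (κ p))) then 1 else 0) else 1))) := by
      intro α
      rw [h1, ← Finset.prod_mul_distrib]
    rw [Finset.sum_congr rfl fun α _ => h3 α]
    have h4 := (Finset.prod_univ_sum (fun _ : P => (Finset.univ : Finset (Fin 3)))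
      (fun p s => (chi (w (κ p)) s *
        ((if (κ p, w (κ p)) ∈ M then (if s = code (w (κ p)) then (1:ℤ) else 0) else 1) *
          (if (κ p, !(w (κ p))) ∈ M then (if s = code (!(w (κ p))) then 1 else 0) else 1)))))
    rw [Fintype.piFinset_univ] at h4
    rw [← h4, Finset.prod_congr rfl fun p _ => letter_sum (w (κ p)) _ _]
    by_cases hM : M = Finset.univ.image (fun p => (κ p, w (κ p)))
    · rw [if_pos hM]
      refine Finset.prod_eq_one fun p _ => ?_
      rw [if_pos]
      constructor
      · rw [hM, Finset.mem_image]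
        exact ⟨p, Finset.mem_univ p, rfl⟩
      · rw [hM, Finset.mem_image]
        rintro ⟨p', _, hp'⟩
        rw [Prod.mk.injEq] at hp'
        rw [hp'.1] at hp'
        cases h : w (κ p) <;> simp [h] at hp'
    · rw [if_neg hM]
      by_contra hne
      apply hM
      have h5 : ∀ p, (κ p, w (κ p)) ∈ M ∧ ¬ (κ p, !(w (κ p))) ∈ M := by
        intro p
        by_contra hp
        exact hne (Finset.prod_eq_zero (Finset.mem_univ p) (if_neg hp))
      ext r
      rw [Finset.mem_image]
      constructor
      · intro hr
        obtain ⟨p, hp⟩ := hA r hr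
        refine ⟨p, Finset.mem_univ p, ?_⟩
        have h6 := (h5 p).2
        by_cases h7 : r.2 = w (κ p)
        · rw [← h7, hp]
        · exfalso
          apply h6
          have h8 : (!(w (κ p))) = r.2 := by
            cases hw : w (κ p) <;> cases hr2 : r.2 <;> simp [hw, hr2] at h7 ⊢
          rw [h8, hp]
          exact hr
      · rintro ⟨p, _, rfl⟩
        exact (h5 p).1

end Pool.Agent.Y531
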