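import Pool.Agent.Y531.Prod

/-!
# The coefficients of a polynomial in the entries of a matrix along labelled rows
-/

set_option autoImplicit false
set_option linter.unusedSectionVars false
set_option maxHeartbeats 1000000

namespace Pool.Agent.Y531

open Finset MvPolynomial Pool.Agent.W942

variable {F : Type*} [Field F] {U V ι : Type*} [DecidableEq ι] [Fintype ι] {n : ℕ}

/-- The entry `(r, c)` of the base point, moved along `β i` if `r` is the row labelled `i`. -/
noncomputable def pt (A : Fin n × Fin n → F) (ρ : ι → Fin n) (β : ι → U → V → Fin n → F)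
    (x : Fin n × Fin n) : SF ι (U → V → F) := fun S =>
  if S = ∅ then (fun _ _ => A x) else ∑ i, if S = {i} ∧ ρ i = x.1 then (fun u v => β i u v x.2) else 0

/-- All coefficients of a polynomial. -/
noncomputable def comp (A : Fin n × Fin n → F) (ρ : ι → Fin n) (β : ι → U → V → Fin n → F) :
    MvPolynomial (Fin n × Fin n) F →ₐ[F] SF ι (U → V → F) := aeval (pt A ρ β)

variable {A : Fin n × Fin n → F} {ρ : ι → Fin n} {β : ι → U → V → Fin n → F}

theorem pt_empty (x : Fin n × Fin n) : pt A ρ β x ∅ = algebraMap F (U → V → F) (A x) := by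
  rw [pt, if_pos rfl]
  rfl

theorem pt_singleton (i : ι) (x : Fin n × Fin n) : pt A ρ β x {i} =
    if ρ i = x.1 then (fun u v => β i u v x.2) else 0 := by
  rw [pt, if_neg (Finset.singleton_ne_empty i), Finset.sum_eq_single i]
  · simp
  · intro j _ hj
    rw [if_neg]
    rintro ⟨h, _⟩
    exact hj (Finset.singleton_inj.1 h).symm
  · intro h
    exact absurd (Finset.mem_univ i) h

theorem pt_zero {S : Finset ι} {x : Fin n × Fin n} (hS : S ≠ ∅)
    (h : ∀ i, S = {i} → ρ i ≠ x.1) : pt A ρ β x S = 0 := by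
  rw [pt, if_neg hS]
  refine Finset.sum_eq_zero fun i _ => ?_
  rw [if_neg]
  rintro ⟨h1, h2⟩
  exact h i h1 h2

theorem comp_locF {Φ : Frame ι U V}
    (hβ : ∀ i u v u' v', Φ.same i u v u' v' → β i u v = β i u' v')
    (f : MvPolynomial (Fin n × Fin n) F) : LocF Φ (comp A ρ β f) := by
  refine LocF.aeval _ (fun x S u v u' v' H => ?_) f
  rw [pt]
  by_cases hS : S = ∅
  · rw [if_pos hS]
  · rw [if_neg hS]
    simp only [Finset.sum_apply]
    refine Finset.sum_congr rfl fun i _ => ?_
    by_cases h : S = {i} ∧ ρ i = x.1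
    · rw [if_pos h]
      have := hβ i u v u' v' (H i (by rw [h.1]; exact Finset.mem_singleton_self i))
      show β i u v x.2 = β i u' v' x.2
      rw [this]
    · rw [if_neg h]
      rfl

theorem comp_empty (f : MvPolynomial (Fin n × Fin n) F) :
    comp A ρ β f ∅ = algebraMap F (U → V → F) (eval A f) := by
  induction f using MvPolynomial.induction_on with
  | C a => rw [comp, algHom_C, SF.algebraMap_apply, if_pos rfl, eval_C]
  | add p q hp hq => rw [map_add, SF.add_def, hp, hq, map_add, map_add]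
  | mul_X p k hp =>
    rw [map_mul]
    have h1 : ((comp A ρ β p) * (comp A ρ β (X k)) : SF ι (U → V → F)) ∅ =
      (comp A ρ β p) ∅ * (comp A ρ β (X k)) ∅ := map_mul (SF.ev0 (ι := ι) (R := U → V → F)) _ _
    rw [h1, hp, comp, aeval_X, pt_empty, map_mul, eval_X, map_mul]

/-- The polynomial involves a variable of the row `r`. -/
def Reads (f : MvPolynomial (Fin n × Fin n) F) (r : Fin n) : Prop := ∃ c, (r, c) ∈ f.vars

theorem comp_eq_zero_of_not_reads (i : ι) {f : MvPolynomial (Fin n × Fin n) F}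
    (hf : ¬ Reads f (ρ i)) {S : Finset ι} (hi : i ∈ S) : comp A ρ β f S = 0 := by
  have h1 : f ∈ supported F {x : Fin n × Fin n | x.1 ≠ ρ i} := by
    rw [mem_supported]
    intro x hx h
    exact hf ⟨x.2, by rw [← h]; exact hx⟩
  rw [supported_eq_adjoin_X] at h1
  clear hf
  revert S
  induction h1 using Algebra.adjoin_induction with
  | mem g hg =>
    intro S hi
    obtain ⟨x, hx, rfl⟩ := hg
    rw [comp, aeval_X]
    refine pt_zero (Finset.ne_empty_of_mem hi) fun j hj => ?_
    rw [hj, Finset.mem_singleton] at hi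
    rw [← hi]
    exact Ne.symm hx
  | algebraMap c =>
    intro S hi
    rw [AlgHom.commutes, SF.algebraMap_apply, if_neg (Finset.ne_empty_of_mem hi)]
  | add g g' _ _ h1 h2 =>
    intro S hi
    rw [map_add, SF.add_def, h1 hi, h2 hi, add_zero]
  | mul g g' _ _ h1 h2 =>
    intro S hi
    rw [map_mul, SF.mul_def]
    refine Finset.sum_eq_zero fun T _ => ?_
    by_cases hT : i ∈ T
    · rw [h1 hT, zero_mul]
    · rw [h2 (Finset.mem_sdiff.2 ⟨hi, hT⟩), mul_zero]

theorem comp_const_of_not_reads {f : MvPolynomial (Fin n × Fin n) F}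
    (hf : ∀ i, ¬ Reads f (ρ i)) :
    comp A ρ β f = algebraMap F (SF ι (U → V → F)) (eval A f) := by
  refine SF.ext' fun S => ?_
  by_cases hS : S = ∅
  · subst hS
    rw [comp_empty, SF.algebraMap_apply, if_pos rfl]
  · obtain ⟨i, hi⟩ := Finset.nonempty_iff_ne_empty.2 hS
    rw [comp_eq_zero_of_not_reads i (hf i) hi, SF.algebraMap_apply, if_neg hS]

theorem pt_eq (x : Fin n × Fin n) (i : ι) (hρ : Function.Injective ρ) (hi : ρ i = x.1) :
    pt A ρ β x = SF.cst (fun _ _ => A x) + SF.sgl {i} (fun u v => β i u v x.2) := by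
  refine SF.ext' fun S => ?_
  rw [SF.add_def, SF.cst_apply, SF.sgl_apply]
  by_cases hS : S = ∅
  · subst hS
    rw [pt, if_pos rfl, if_pos rfl, if_neg (Finset.singleton_ne_empty i).symm, add_zero]
  · rw [if_neg hS, zero_add]
    by_cases h : S = {i}
    · subst h
      rw [pt_singleton, if_pos hi, if_pos rfl]
    · rw [if_neg h]
      refine pt_zero (F := F) hS fun j hj hj' => h ?_
      rw [hj, hρ (hj'.trans hi.symm)]

theorem pt_eq_cst (x : Fin n × Fin n) (h : ∀ i, ρ i ≠ x.1) :
    pt A ρ β x = SF.cst (fun _ _ => A x) := by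
  refine SF.ext' fun S => ?_
  rw [SF.cst_apply]
  by_cases hS : S = ∅
  · subst hS
    rw [pt, if_pos rfl, if_pos rfl]
  · rw [if_neg hS]
    exact pt_zero (F := F) hS fun i _ => h i

/-- The top coefficient of a product with one factor from each row. -/
theorem prod_pt_univ (hρ : Function.Injective ρ) (c : Fin n → Fin n) (u : U) (v : V) :
    (∏ r, pt A ρ β (r, c r) : SF ι (U → V → F)) Finset.univ u v =
      (∏ i, β i u v (c (ρ i))) * ∏ r ∈ Finset.univ.filter (fun r => ∀ i, ρ i ≠ r), A (r, c r) := by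
  classical
  have h1 : (∏ r, pt A ρ β (r, c r) : SF ι (U → V → F)) =
      (∏ r ∈ Finset.univ.map ⟨ρ, hρ⟩, pt A ρ β (r, c r)) *
      ∏ r ∈ Finset.univ.filter (fun r => ∀ i, ρ i ≠ r), pt A ρ β (r, c r) := by
    rw [← Finset.prod_union]
    · congr 1
      symm
      rw [Finset.eq_univ_iff_forall]
      intro r
      rw [Finset.mem_union, Finset.mem_map, Finset.mem_filter]
      by_cases h : ∃ i, ρ i = r
      · obtain ⟨i, hi⟩ := h
        exact Or.inl ⟨i, Finset.mem_univ i, hi⟩
      · push Not at h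
        exact Or.inr ⟨Finset.mem_univ r, h⟩
    · rw [Finset.disjoint_left]
      intro r hr hr'
      rw [Finset.mem_map] at hr
      obtain ⟨i, _, hi⟩ := hr
      exact (Finset.mem_filter.1 hr').2 i hi
  have h2 : (∏ r ∈ Finset.univ.filter (fun r => ∀ i, ρ i ≠ r), pt A ρ β (r, c r) :
      SF ι (U → V → F)) = SF.cst (fun _ _ => ∏ r ∈ Finset.univ.filter (fun r => ∀ i, ρ i ≠ r),
        A (r, c r)) := by
    rw [Finset.prod_congr rfl fun r hr => pt_eq_cst (r, c r) (Finset.mem_filter.1 hr).2,
      ← map_prod]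
    congr 1
    funext u v
    simp only [Finset.prod_apply]
  have h3 : (∏ r ∈ Finset.univ.map ⟨ρ, hρ⟩, pt A ρ β (r, c r) : SF ι (U → V → F)) Finset.univ =
      ∏ i, (fun u v => β i u v (c (ρ i))) := by
    rw [Finset.prod_map]
    simp only [Function.Embedding.coeFn_mk]
    rw [Finset.prod_congr rfl fun i _ => pt_eq (ρ i, c (ρ i)) i hρ rfl, Finset.prod_add,
      SF.sum_apply, Finset.sum_eq_single ∅]
    · rw [Finset.prod_empty, one_mul, Finset.sdiff_empty, SF.prod_sgl, SF.sgl_apply, if_pos rfl]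
    · intro t _ ht
      rw [← map_prod, SF.cst_mul_apply, SF.prod_sgl, SF.sgl_apply, if_neg, mul_zero]
      intro h
      apply ht
      rw [← Finset.disjoint_self_iff_empty]
      have h4 : Disjoint t (Finset.univ \ t) := Finset.disjoint_sdiff
      rw [← h] at h4
      exact h4.mono_right (Finset.subset_univ t)
    · intro h
      exact absurd (Finset.empty_mem_powerset _) h
  rw [h1, h2, mul_comm, SF.cst_mul_apply, h3, mul_comm]
  simp only [Pi.mul_apply, Finset.prod_apply]

/-- The permanent of the generic matrix. -/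
noncomputable def perX (n : ℕ) (F : Type*) [Field F] : MvPolynomial (Fin n × Fin n) F :=
  (Matrix.of fun r c => (X (r, c) : MvPolynomial (Fin n × Fin n) F)).permanent

/-- The top coefficient of the permanent. -/
theorem comp_perX (hρ : Function.Injective ρ) (u : U) (v : V) :
    comp A ρ β (perX n F) Finset.univ u v = ∑ σ : Equiv.Perm (Fin n),
      (∏ i, β i u v (σ (ρ i))) * ∏ r ∈ Finset.univ.filter (fun r => ∀ i, ρ i ≠ r), A (r, σ r) := by
  rw [perX, Matrix.permanent, map_sum, SF.sum_apply, Finset.sum_apply, Finset.sum_apply]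
  rw [← Equiv.sum_comp (Equiv.inv (Equiv.Perm (Fin n)))]
  apply Finset.sum_congr rfl
  intro σ _
  rw [← prod_pt_univ (A := A) (β := β) hρ, map_prod]
  have h1 : (∏ x, comp A ρ β ((Matrix.of fun r c => (X (r, c) : MvPolynomial (Fin n × Fin n) F))
      ((Equiv.inv (Equiv.Perm (Fin n))) σ x) x) : SF ι (U → V → F)) =
      ∏ r, pt A ρ β (r, σ r) := by
    rw [← Equiv.prod_comp σ]
    apply Finset.prod_congr rfl
    intro r _
    rw [Equiv.inv_apply, Matrix.of_apply, comp, aeval_X]
    simp
  rw [h1]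

end Pool.Agent.Y531
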