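import Mathlib

/-!
# Set functions with subset convolution (the algebra `R[t_i]/(t_i²)`)
-/

set_option autoImplicit false

namespace Pool.Agent.Y531

open Finset

/-- Functions on the finite subsets of `ι`, to be multiplied by subset convolution. -/
def SF (ι : Type*) (R : Type*) : Type _ := Finset ι → R

namespace SF

set_option linter.unusedSectionVars false

variable {ι R : Type*} [DecidableEq ι] [CommRing R]

instance : AddCommGroup (SF ι R) := inferInstanceAs (AddCommGroup (Finset ι → R))

instance : Mul (SF ι R) := ⟨fun f g => fun S => ∑ T ∈ S.powerset, f T * g (S \ T)⟩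
instance : One (SF ι R) := ⟨fun S => if S = ∅ then 1 else 0⟩

@[ext] theorem ext' {f g : SF ι R} (h : ∀ S, f S = g S) : f = g := funext h

theorem mul_def (f g : SF ι R) (S : Finset ι) : (f * g) S = ∑ T ∈ S.powerset, f T * g (S \ T) := rfl
theorem one_def (S : Finset ι) : (1 : SF ι R) S = if S = ∅ then 1 else 0 := rfl
@[simp] theorem add_def (f g : SF ι R) (S : Finset ι) : (f + g) S = f S + g S := rfl
@[simp] theorem sub_def (f g : SF ι R) (S : Finset ι) : (f - g) S = f S - g S := rfl
@[simp] theorem neg_def (f : SF ι R) (S : Finset ι) : (-f) S = -f S := rfl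
@[simp] theorem zero_def (S : Finset ι) : (0 : SF ι R) S = 0 := rfl

protected theorem mul_comm' (f g : SF ι R) : f * g = g * f := by
  ext S
  rw [mul_def, mul_def]
  refine Finset.sum_bij' (fun T _ => S \ T) (fun T _ => S \ T) ?_ ?_ ?_ ?_ ?_
  · intro T _; simp
  · intro T _; simp
  · intro T hT; simpa using hT
  · intro T hT; simpa using hT
  · intro T hT
    rw [Finset.mem_powerset] at hT
    rw [Finset.sdiff_sdiff_eq_self hT, mul_comm]

protected theorem mul_assoc' (f g h : SF ι R) : f * g * h = f * (g * h) := by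
  ext S
  simp only [mul_def, Finset.sum_mul, Finset.mul_sum]
  rw [Finset.sum_sigma', Finset.sum_sigma']
  refine Finset.sum_bij' (fun p _ => ⟨p.2, p.1 \ p.2⟩) (fun p _ => ⟨p.1 ∪ p.2, p.1⟩) ?_ ?_ ?_ ?_ ?_
  · rintro ⟨T, U⟩ h
    simp only [Finset.mem_sigma, Finset.mem_powerset] at h ⊢
    exact ⟨h.2.trans h.1, Finset.sdiff_subset_sdiff h.1 le_rfl⟩
  · rintro ⟨U, V⟩ h
    simp only [Finset.mem_sigma, Finset.mem_powerset] at h ⊢
    exact ⟨Finset.union_subset h.1 (h.2.trans Finset.sdiff_subset), Finset.subset_union_left⟩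
  · rintro ⟨T, U⟩ h
    simp only [Finset.mem_sigma, Finset.mem_powerset] at h ⊢
    rw [Finset.union_sdiff_of_subset h.2]
  · rintro ⟨U, V⟩ h
    simp only [Finset.mem_sigma, Finset.mem_powerset] at h ⊢
    have : (U ∪ V) \ U = V := by
      rw [Finset.union_sdiff_left]
      exact Finset.sdiff_eq_self_of_disjoint
        (Finset.disjoint_left.2 fun x hx hx' => (Finset.mem_sdiff.1 (h.2 hx)).2 hx')
    rw [this]
  · rintro ⟨T, U⟩ h
    simp only [Finset.mem_sigma, Finset.mem_powerset] at h ⊢
    have : (S \ U) \ (T \ U) = S \ T := by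
      ext x
      simp only [Finset.mem_sdiff]
      constructor
      · rintro ⟨⟨h1, h2⟩, h3⟩
        exact ⟨h1, fun h4 => h3 ⟨h4, h2⟩⟩
      · rintro ⟨h1, h2⟩
        exact ⟨⟨h1, fun h3 => h2 (h.2 h3)⟩, fun h3 => h2 h3.1⟩
    rw [this, mul_assoc]

protected theorem one_mul' (f : SF ι R) : 1 * f = f := by
  ext S
  rw [mul_def, Finset.sum_eq_single ∅]
  · simp [one_def]
  · intro T _ hT
    simp [one_def, hT]
  · intro h
    exact absurd (Finset.empty_mem_powerset S) h

instance : CommRing (SF ι R) :=
  { (inferInstance : AddCommGroup (SF ι R)) with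
    mul := (· * ·)
    one := 1
    mul_assoc := SF.mul_assoc'
    mul_comm := SF.mul_comm'
    one_mul := SF.one_mul'
    mul_one := fun f => by rw [SF.mul_comm', SF.one_mul']
    left_distrib := fun f g h => by
      ext S
      simp only [mul_def, add_def, mul_add, Finset.sum_add_distrib]
    right_distrib := fun f g h => by
      ext S
      simp only [mul_def, add_def, add_mul, Finset.sum_add_distrib]
    zero_mul := fun f => by
      ext S
      simp only [mul_def, zero_def, zero_mul, Finset.sum_const_zero]
    mul_zero := fun f => by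
      ext S
      simp only [mul_def, zero_def, mul_zero, Finset.sum_const_zero] }

theorem sum_apply {J : Type*} (s : Finset J) (f : J → SF ι R) (S : Finset ι) :
    (∑ j ∈ s, f j : SF ι R) S = ∑ j ∈ s, f j S :=
  Finset.sum_apply S s f

/-- The value at the empty set is a ring homomorphism. -/
def ev0 : SF ι R →+* R where
  toFun f := f ∅
  map_one' := by simp [one_def]
  map_mul' f g := by simp [mul_def]
  map_zero' := rfl
  map_add' _ _ := rfl

@[simp] theorem ev0_apply (f : SF ι R) : ev0 f = f ∅ := rfl

/-- The set function supported at the empty set. -/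
def cf (r : R) : SF ι R := fun S => if S = ∅ then r else 0

theorem cf_apply (r : R) (S : Finset ι) : (cf r : SF ι R) S = if S = ∅ then r else 0 := rfl

/-- Constants. -/
def cst : R →+* SF ι R where
  toFun r := cf r
  map_one' := rfl
  map_mul' a b := by
    ext S
    rw [mul_def]
    by_cases hS : S = ∅
    · subst hS; simp [cf_apply]
    · rw [cf_apply, if_neg hS]
      symm
      refine Finset.sum_eq_zero fun T hT => ?_
      by_cases hT' : T = ∅
      · subst hT'
        rw [Finset.sdiff_empty, cf_apply _ S, if_neg hS, mul_zero]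
      · rw [cf_apply, if_neg hT', zero_mul]
  map_zero' := by ext S; simp [cf_apply]
  map_add' a b := by ext S; by_cases hS : S = ∅ <;> simp [hS, cf_apply]

theorem cst_apply (r : R) (S : Finset ι) : (cst r : SF ι R) S = if S = ∅ then r else 0 := rfl

theorem cst_mul_apply (r : R) (f : SF ι R) (S : Finset ι) : (cst r * f : SF ι R) S = r * f S := by
  rw [mul_def, Finset.sum_eq_single ∅]
  · simp [cst_apply]
  · intro T _ hT
    simp [cst_apply, hT]
  · intro h
    exact absurd (Finset.empty_mem_powerset S) h

section algebra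
variable {F : Type*} [CommRing F] [Algebra F R]

noncomputable instance : Algebra F (SF ι R) := RingHom.toAlgebra (cst.comp (algebraMap F R))

theorem algebraMap_apply (c : F) (S : Finset ι) :
    (algebraMap F (SF ι R) c : SF ι R) S = if S = ∅ then algebraMap F R c else 0 := rfl

theorem smul_apply (c : F) (f : SF ι R) (S : Finset ι) : (c • f : SF ι R) S = c • f S := by
  rw [Algebra.smul_def, Algebra.smul_def]
  exact cst_mul_apply _ _ _

end algebra

/-- The set function supported at `S`. -/
def sgl (S : Finset ι) (r : R) : SF ι R := fun T => if T = S then r else 0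

theorem sgl_apply (S T : Finset ι) (r : R) : (sgl S r : SF ι R) T = if T = S then r else 0 := rfl

theorem sgl_empty (r : R) : sgl (∅ : Finset ι) r = cst r := rfl

theorem sgl_mul_apply (S M : Finset ι) (r : R) (g : SF ι R) :
    (sgl S r * g : SF ι R) M = if S ⊆ M then r * g (M \ S) else 0 := by
  rw [mul_def]
  by_cases h : S ⊆ M
  · rw [if_pos h, Finset.sum_eq_single S]
    · rw [sgl_apply, if_pos rfl]
    · intro Z _ hZ
      rw [sgl_apply, if_neg hZ, zero_mul]
    · intro hS
      exact absurd (Finset.mem_powerset.2 h) hS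
  · rw [if_neg h]
    refine Finset.sum_eq_zero fun Z hZ => ?_
    rw [sgl_apply, if_neg, zero_mul]
    rintro rfl
    exact h (Finset.mem_powerset.1 hZ)

theorem sgl_mul {S T : Finset ι} (h : Disjoint S T) (r s : R) :
    (sgl S r * sgl T s : SF ι R) = sgl (S ∪ T) (r * s) := by
  refine ext' fun W => ?_
  rw [sgl_mul_apply, sgl_apply, sgl_apply]
  by_cases hW : W = S ∪ T
  · rw [if_pos hW, if_pos (hW ▸ Finset.subset_union_left), if_pos]
    rw [hW, Finset.union_sdiff_left]
    exact Finset.sdiff_eq_self_of_disjoint h.symm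
  · rw [if_neg hW]
    by_cases h1 : S ⊆ W
    · rw [if_pos h1, if_neg, mul_zero]
      intro h2
      apply hW
      rw [← h2, Finset.union_sdiff_of_subset h1]
    · rw [if_neg h1]

theorem sgl_mul_zero {S T : Finset ι} (h : ¬ Disjoint S T) (r s : R) :
    (sgl S r * sgl T s : SF ι R) = 0 := by
  refine ext' fun W => ?_
  rw [sgl_mul_apply, zero_def]
  by_cases h1 : S ⊆ W
  · rw [if_pos h1, sgl_apply, if_neg, mul_zero]
    rintro rfl
    exact h Finset.disjoint_sdiff
  · rw [if_neg h1]

theorem prod_sgl_disj {J : Type*} [DecidableEq J] (s : Finset J) (M : J → Finset ι) (r : J → R)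
    (hM : ∀ i ∈ s, ∀ j ∈ s, i ≠ j → Disjoint (M i) (M j)) :
    (∏ i ∈ s, sgl (M i) (r i) : SF ι R) = sgl (s.biUnion M) (∏ i ∈ s, r i) := by
  induction s using Finset.induction_on with
  | empty => rw [Finset.prod_empty, Finset.prod_empty, Finset.biUnion_empty, sgl_empty, map_one]
  | insert a s ha ih =>
    rw [Finset.prod_insert ha, Finset.prod_insert ha, Finset.biUnion_insert,
      ih fun i hi j hj => hM i (Finset.mem_insert_of_mem hi) j (Finset.mem_insert_of_mem hj),
      sgl_mul]
    rw [Finset.disjoint_biUnion_right]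
    intro j hj
    exact hM a (Finset.mem_insert_self a s) j (Finset.mem_insert_of_mem hj)
      (fun h => ha (h ▸ hj))

theorem prod_sgl (s : Finset ι) (r : ι → R) :
    (∏ i ∈ s, sgl {i} (r i) : SF ι R) = sgl s (∏ i ∈ s, r i) := by
  rw [prod_sgl_disj s (fun i => {i}) r fun i _ j _ hij => Finset.disjoint_singleton.2 hij]
  congr 1
  ext i
  simp

/-- The terms containing `i`, divided by `t_i`. -/
def dd (i : ι) (f : SF ι R) : SF ι R := fun B => if i ∈ B then 0 else f (insert i B)

/-- The terms not containing `i`. -/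
def sg (i : ι) (f : SF ι R) : SF ι R := fun B => if i ∈ B then 0 else f B

theorem dd_apply_of_notMem {i : ι} {B : Finset ι} (h : i ∉ B) (f : SF ι R) :
    dd i f B = f (insert i B) := if_neg h
theorem sg_apply_of_notMem {i : ι} {B : Finset ι} (h : i ∉ B) (f : SF ι R) :
    sg i f B = f B := if_neg h
theorem dd_apply_of_mem {i : ι} {B : Finset ι} (h : i ∈ B) (f : SF ι R) :
    dd i f B = 0 := if_pos h
theorem sg_apply_of_mem {i : ι} {B : Finset ι} (h : i ∈ B) (f : SF ι R) :
    sg i f B = 0 := if_pos h

theorem dd_add (i : ι) (f g : SF ι R) : dd i (f + g) = dd i f + dd i g := by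
  ext B; by_cases h : i ∈ B <;> simp [dd, h]

theorem sg_mul (i : ι) (f g : SF ι R) : sg i (f * g) = sg i f * sg i g := by
  ext B
  by_cases h : i ∈ B
  · rw [sg_apply_of_mem h, mul_def]
    symm
    refine Finset.sum_eq_zero fun T _ => ?_
    by_cases hT : i ∈ T
    · rw [sg_apply_of_mem hT, zero_mul]
    · rw [sg_apply_of_mem (Finset.mem_sdiff.2 ⟨h, hT⟩) g, mul_zero]
  · rw [sg_apply_of_notMem h, mul_def, mul_def]
    refine Finset.sum_congr rfl fun T hT => ?_
    rw [Finset.mem_powerset] at hT
    rw [sg_apply_of_notMem (fun h' => h (hT h')),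
      sg_apply_of_notMem (fun h' => h (Finset.mem_sdiff.1 h').1)]

theorem dd_mul (i : ι) (f g : SF ι R) : dd i (f * g) = dd i f * sg i g + sg i f * dd i g := by
  ext B
  by_cases h : i ∈ B
  · rw [dd_apply_of_mem h, add_def, mul_def, mul_def]
    symm
    rw [Finset.sum_eq_zero, Finset.sum_eq_zero, add_zero]
    · intro T _
      by_cases hT : i ∈ T
      · rw [sg_apply_of_mem hT, zero_mul]
      · rw [dd_apply_of_mem (Finset.mem_sdiff.2 ⟨h, hT⟩) g, mul_zero]
    · intro T _
      by_cases hT : i ∈ T
      · rw [dd_apply_of_mem hT, zero_mul]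
      · rw [sg_apply_of_mem (Finset.mem_sdiff.2 ⟨h, hT⟩) g, mul_zero]
  · rw [dd_apply_of_notMem h, mul_def, add_def, mul_def, mul_def, Finset.sum_powerset_insert h,
      add_comm]
    congr 1
    · refine Finset.sum_congr rfl fun T hT => ?_
      rw [Finset.mem_powerset] at hT
      have h1 : i ∉ T := fun h' => h (hT h')
      have h2 : i ∉ B \ T := fun h' => h (Finset.mem_sdiff.1 h').1
      rw [dd_apply_of_notMem h1, sg_apply_of_notMem h2, Finset.insert_sdiff_insert,
        Finset.sdiff_insert_of_notMem h]
    · refine Finset.sum_congr rfl fun T hT => ?_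
      rw [Finset.mem_powerset] at hT
      have h1 : i ∉ T := fun h' => h (hT h')
      have h2 : i ∉ B \ T := fun h' => h (Finset.mem_sdiff.1 h').1
      rw [sg_apply_of_notMem h1, dd_apply_of_notMem h2, Finset.insert_sdiff_of_notMem _ h1]

theorem sg_one (i : ι) : sg i (1 : SF ι R) = 1 := by
  ext B
  by_cases h : i ∈ B
  · rw [sg_apply_of_mem h, one_def, if_neg (Finset.ne_empty_of_mem h)]
  · rw [sg_apply_of_notMem h]

theorem dd_one (i : ι) : dd i (1 : SF ι R) = 0 := by
  ext B
  by_cases h : i ∈ B
  · rw [dd_apply_of_mem h]; rfl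
  · rw [dd_apply_of_notMem h, one_def, if_neg (Finset.insert_ne_empty _ _)]; rfl

theorem sg_prod {J : Type*} (i : ι) (s : Finset J) (g : J → SF ι R) :
    sg i (∏ j ∈ s, g j) = ∏ j ∈ s, sg i (g j) := by
  classical
  induction s using Finset.induction_on with
  | empty => rw [Finset.prod_empty, Finset.prod_empty, sg_one]
  | insert a s ha ih => rw [Finset.prod_insert ha, Finset.prod_insert ha, sg_mul, ih]

theorem dd_prod {J : Type*} [DecidableEq J] (i : ι) (s : Finset J) (g : J → SF ι R) :
    dd i (∏ j ∈ s, g j) = ∑ j ∈ s, dd i (g j) * sg i (∏ k ∈ s.erase j, g k) := by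
  induction s using Finset.induction_on with
  | empty => rw [Finset.prod_empty, Finset.sum_empty, dd_one]
  | insert a s ha ih =>
    rw [Finset.prod_insert ha, dd_mul, ih, Finset.sum_insert ha, Finset.erase_insert ha,
      Finset.mul_sum]
    congr 1
    refine Finset.sum_congr rfl fun j hj => ?_
    have hja : a ≠ j := fun h => ha (h ▸ hj)
    rw [Finset.erase_insert_of_ne hja, Finset.prod_insert (fun h => ha (Finset.mem_of_mem_erase h)),
      sg_mul]
    ring

theorem dd_algebraMap {F : Type*} [CommRing F] [Algebra F R] (i : ι) (c : F) :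
    dd i (algebraMap F (SF ι R) c) = 0 := by
  ext B
  by_cases h : i ∈ B
  · rw [dd_apply_of_mem h]; rfl
  · rw [dd_apply_of_notMem h, algebraMap_apply, if_neg (Finset.insert_ne_empty _ _)]; rfl

/-- A set function without constant term is nilpotent. -/
theorem isNilpotent_of_apply_empty [Fintype ι] (f : SF ι R) (h : f ∅ = 0) : IsNilpotent f := by
  have key : ∀ k : ℕ, ∀ S : Finset ι, S.card < k → (f ^ k) S = 0 := by
    intro k
    induction k with
    | zero => intro S hS; exact absurd hS (Nat.not_lt_zero _)
    | succ k ih =>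
      intro S hS
      rw [pow_succ, mul_def]
      refine Finset.sum_eq_zero fun T hT => ?_
      rw [Finset.mem_powerset] at hT
      by_cases hST : S \ T = ∅
      · rw [hST, h, mul_zero]
      · rw [ih T, zero_mul]
        have h1 : (S \ T).card + T.card = S.card := Finset.card_sdiff_add_card_eq_card hT
        have h2 : 0 < (S \ T).card := Finset.card_pos.2 (Finset.nonempty_iff_ne_empty.2 hST)
        omega
  refine ⟨Fintype.card ι + 1, ?_⟩
  ext S
  rw [key _ S (Nat.lt_succ_of_le (Finset.card_le_univ S))]
  rfl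

/-- A set function whose constant term is a unit is a unit. -/
theorem isUnit_of_apply_empty [Fintype ι] (f : SF ι R) (h : IsUnit (f ∅)) : IsUnit f := by
  have h1 : IsUnit (cst (ι := ι) (f ∅)) := h.map cst
  have h2 : IsNilpotent (f - cst (f ∅)) := isNilpotent_of_apply_empty _ (by simp [cst_apply])
  have h3 := h2.isUnit_add_left_of_commute h1 (Commute.all _ _)
  simpa using h3

end SF

end Pool.Agent.Y531
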