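import Pool.Agent.Y531.Conv
import Pool.Agent.W942.Rk

/-!
# Relative rank of the coefficients: products and compositions
-/

set_option autoImplicit false
set_option linter.unusedSectionVars false

namespace Pool.Agent.Y531

open Finset MvPolynomial Pool.Agent.W942

/-- Which coordinates belong to `i`, and the weight of `i`. -/
structure Frame (ι U V : Type*) where
  same : ι → U → V → U → V → Prop
  w : ι → ℝ
  w_pos : ∀ i, 0 < w i

variable {F : Type*} [Field F] {U V ι : Type*} [DecidableEq ι]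

namespace Frame

variable (Φ : Frame ι U V)

/-- The weight of a set. -/
noncomputable def wt (S : Finset ι) : ℝ := ∏ i ∈ S, Φ.w i

theorem wt_pos (S : Finset ι) : 0 < Φ.wt S := Finset.prod_pos fun i _ => Φ.w_pos i

theorem wt_union {S T : Finset ι} (h : Disjoint S T) : Φ.wt (S ∪ T) = Φ.wt S * Φ.wt T :=
  Finset.prod_union h

@[simp] theorem wt_empty : Φ.wt ∅ = 1 := Finset.prod_empty

/-- The function depends only on the coordinates of `S`. -/
def Loc (S : Finset ι) (h : U → V → F) : Prop :=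
  ∀ u v u' v', (∀ i ∈ S, Φ.same i u v u' v') → h u v = h u' v'

variable {Φ}

theorem Loc.mono {S T : Finset ι} {h : U → V → F} (hh : Φ.Loc S h) (hST : S ⊆ T) : Φ.Loc T h :=
  fun u v u' v' H => hh u v u' v' fun i hi => H i (hST hi)

theorem Loc.add {S : Finset ι} {h k : U → V → F} (hh : Φ.Loc S h) (hk : Φ.Loc S k) :
    Φ.Loc S (h + k) := fun u v u' v' H => by
  rw [Pi.add_apply, Pi.add_apply, Pi.add_apply, Pi.add_apply, hh u v u' v' H, hk u v u' v' H]

theorem Loc.mul {S : Finset ι} {h k : U → V → F} (hh : Φ.Loc S h) (hk : Φ.Loc S k) :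
    Φ.Loc S (h * k) := fun u v u' v' H => by
  rw [Pi.mul_apply, Pi.mul_apply, Pi.mul_apply, Pi.mul_apply, hh u v u' v' H, hk u v u' v' H]

theorem Loc.mul' {S T : Finset ι} {h k : U → V → F} (hh : Φ.Loc S h) (hk : Φ.Loc T k) :
    Φ.Loc (S ∪ T) (h * k) :=
  (hh.mono Finset.subset_union_left).mul (hk.mono Finset.subset_union_right)

theorem Loc.const (S : Finset ι) (c : F) : Φ.Loc S (fun (_ : U) (_ : V) => c) :=
  fun _ _ _ _ _ => rfl

theorem Loc.algebraMap (S : Finset ι) (c : F) : Φ.Loc S (algebraMap F (U → V → F) c) :=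
  fun _ _ _ _ _ => rfl

theorem Loc.zero (S : Finset ι) : Φ.Loc S (0 : U → V → F) := fun _ _ _ _ _ => rfl

theorem Loc.neg {S : Finset ι} {h : U → V → F} (hh : Φ.Loc S h) : Φ.Loc S (-h) :=
  fun u v u' v' H => by
    rw [Pi.neg_apply, Pi.neg_apply, Pi.neg_apply, Pi.neg_apply, hh u v u' v' H]

theorem Loc.smul {S : Finset ι} {h : U → V → F} (hh : Φ.Loc S h) (c : F) : Φ.Loc S (c • h) :=
  fun u v u' v' H => by
    rw [Pi.smul_apply, Pi.smul_apply, Pi.smul_apply, Pi.smul_apply, hh u v u' v' H]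

theorem Loc.sum {S : Finset ι} {J : Type*} (s : Finset J) {h : J → U → V → F}
    (hh : ∀ j ∈ s, Φ.Loc S (h j)) : Φ.Loc S (∑ j ∈ s, h j) := by
  classical
  induction s using Finset.induction_on with
  | empty => rw [Finset.sum_empty]; exact Loc.zero S
  | insert a s ha ih =>
    rw [Finset.sum_insert ha]
    exact (hh a (Finset.mem_insert_self a s)).add
      (ih fun j hj => hh j (Finset.mem_insert_of_mem hj))

end Frame

theorem rk_smul {M : U → V → F} {ρ : ℝ} (h : HasRkR M ρ) (c : F) : HasRkR (c • M) ρ := by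
  have h1 : HasRkR (fun (_ : U) (_ : V) => c) 1 :=
    ⟨1, HasRk.one_of_mul (fun _ => c) (fun _ => 1) (fun _ _ => by simp), by simp⟩
  have h2 := h1.mul h
  rw [one_mul] at h2
  exact h2.congr fun u v => rfl

/-- All functions are trivially bounded. -/
def Triv (F : Type*) [Field F] (Φ : Frame ι U V) : Prop :=
  ∀ (S : Finset ι) (h : U → V → F), Φ.Loc S h → HasRkR h (Φ.wt S)

/-- Below `T` there is a gain of `z` for each element. -/
def Scale (F : Type*) [Field F] (Φ : Frame ι U V) (T : ℕ) (z : ℝ) : Prop :=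
  ∀ (S : Finset ι) (h : U → V → F), S.Nonempty → S.card < T → Φ.Loc S h →
    HasRkR h (z ^ S.card * Φ.wt S)

/-- The bound obtained for sums of `N` products. -/
def Bd (Φ : Frame ι U V) (z X N : ℝ) (S : Finset ι) (g : U → V → F) : Prop :=
  Φ.Loc S g ∧ HasRkR g (N * max (z ^ S.card) X * Φ.wt S)

/-- A block function. -/
def GoodAt (Φ : Frame ι U V) (T : ℕ) (X : ℝ) (B : Finset ι) (k : U → V → F) : Prop :=
  Φ.Loc B k ∧ (T ≤ B.card → HasRkR k (X * Φ.wt B))

/-- A set function all of whose values are good. -/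
def Good (Φ : Frame ι U V) (T : ℕ) (X : ℝ) (f : SF ι (U → V → F)) : Prop :=
  ∀ B, GoodAt Φ T X B (f B)

section
variable {Φ : Frame ι U V} {z X N N' : ℝ} {S B : Finset ι} {g g' k : U → V → F} {T : ℕ}

theorem Bd.zero : Bd Φ z X 0 S (0 : U → V → F) := by
  refine ⟨Frame.Loc.zero S, ?_⟩
  have := HasRkR.zero (K := F) (U := U) (V := V)
  rw [zero_mul, zero_mul]
  exact this

theorem Bd.add (h : Bd Φ z X N S g) (h' : Bd Φ z X N' S g') : Bd Φ z X (N + N') S (g + g') := by
  refine ⟨h.1.add h'.1, ?_⟩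
  have := h.2.add h'.2
  refine (this.mono ?_).congr fun u v => rfl
  apply le_of_eq; ring

theorem Bd.sum {J : Type*} (s : Finset J) {h : J → U → V → F} {n : J → ℝ}
    (hh : ∀ j ∈ s, Bd Φ z X (n j) S (h j)) : Bd Φ z X (∑ j ∈ s, n j) S (∑ j ∈ s, h j) := by
  classical
  induction s using Finset.induction_on with
  | empty => rw [Finset.sum_empty, Finset.sum_empty]; exact Bd.zero
  | insert a s ha ih =>
    rw [Finset.sum_insert ha, Finset.sum_insert ha]
    exact (hh a (Finset.mem_insert_self a s)).add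
      (ih fun j hj => hh j (Finset.mem_insert_of_mem hj))

theorem Bd.mono (h : Bd Φ z X N S g) (hX : 0 ≤ X) (hN : N ≤ N') : Bd Φ z X N' S g := by
  refine ⟨h.1, h.2.mono ?_⟩
  have h1 : 0 ≤ max (z ^ S.card) X := hX.trans (le_max_right _ _)
  have h2 := (Φ.wt_pos S).le
  gcongr

theorem Bd.smul (h : Bd Φ z X N S g) (c : F) : Bd Φ z X N S (c • g) :=
  ⟨h.1.smul c, rk_smul h.2 c⟩

theorem Bd.const (ht : Triv F Φ) {g : U → V → F} (hg : Φ.Loc ∅ g) :
    Bd Φ z X 1 ∅ g := by
  refine ⟨hg, (ht ∅ g hg).mono ?_⟩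
  rw [Frame.wt_empty, Finset.card_empty, pow_zero, one_mul, mul_one]
  exact le_max_left _ _

theorem Bd.block (ht : Triv F Φ) (hz0 : 0 ≤ z) (hz1 : z ≤ 1) (hX : 0 ≤ X) (hs : Scale F Φ T z)
    (hk : GoodAt Φ T X B k) (hB : B.Nonempty) (hBS : Disjoint B S) (hg : Bd Φ z X N S g)
    (hN : 1 ≤ N) : Bd Φ z X N (B ∪ S) (k * g) := by
  refine ⟨hk.1.mul' hg.1, ?_⟩
  have hwB := Φ.wt_pos B
  have hwS := Φ.wt_pos S
  have hcard : (B ∪ S).card = B.card + S.card := Finset.card_union_of_disjoint hBS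
  rw [Φ.wt_union hBS, hcard]
  by_cases hT : T ≤ B.card
  · have h1 := (hk.2 hT).mul (ht S g hg.1)
    refine (h1.mono ?_).congr fun u v => rfl
    have h2 : X ≤ N * max (z ^ (B.card + S.card)) X :=
      (le_max_right _ _).trans (le_mul_of_one_le_left (hX.trans (le_max_right _ _)) hN)
    calc X * Φ.wt B * Φ.wt S = X * (Φ.wt B * Φ.wt S) := by ring
      _ ≤ _ := mul_le_mul_of_nonneg_right h2 (by positivity)
  · have h1 := (hs B k hB (not_le.1 hT) hk.1).mul hg.2
    refine (h1.mono ?_).congr fun u v => rfl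
    have h2 : z ^ B.card * max (z ^ S.card) X ≤ max (z ^ (B.card + S.card)) X := by
      rw [mul_max_of_nonneg _ _ (pow_nonneg hz0 _), ← pow_add]
      refine max_le_max le_rfl ?_
      exact mul_le_of_le_one_left hX (pow_le_one₀ hz0 hz1)
    calc z ^ B.card * Φ.wt B * (N * max (z ^ S.card) X * Φ.wt S)
        = N * (z ^ B.card * max (z ^ S.card) X) * (Φ.wt B * Φ.wt S) := by ring
      _ ≤ N * max (z ^ (B.card + S.card)) X * (Φ.wt B * Φ.wt S) := by
          have : 0 ≤ N := zero_le_one.trans hN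
          gcongr

theorem Good.mono {T' : ℕ} {X' : ℝ} {f : SF ι (U → V → F)} (h : Good Φ T X f) (hT : T ≤ T')
    (hX : X ≤ X') : Good Φ T' X' f := fun B =>
  ⟨(h B).1, fun hB => ((h B).2 (hT.trans hB)).mono
    (mul_le_mul_of_nonneg_right hX (Φ.wt_pos B).le)⟩

/-- From the bound to goodness at the next scale. -/
theorem Bd.goodAt {T' : ℕ} {X' : ℝ} (h : Bd Φ z X N S g) (hz0 : 0 ≤ z) (hz1 : z ≤ 1)
    (hT' : z ^ T' ≤ X) (hX' : N * X ≤ X') : GoodAt Φ T' X' S g := by
  refine ⟨h.1, fun hS => h.2.mono ?_⟩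
  have h1 : max (z ^ S.card) X = X :=
    max_eq_right ((pow_le_pow_of_le_one hz0 hz1 hS).trans hT')
  rw [h1]
  exact mul_le_mul_of_nonneg_right hX' (Φ.wt_pos S).le

end

/-- Every value is local. -/
def LocF (Φ : Frame ι U V) (f : SF ι (U → V → F)) : Prop := ∀ S, Φ.Loc S (f S)

theorem LocF.add {Φ : Frame ι U V} {f g : SF ι (U → V → F)} (hf : LocF Φ f) (hg : LocF Φ g) :
    LocF Φ (f + g) := fun S => (hf S).add (hg S)

theorem LocF.mul {Φ : Frame ι U V} {f g : SF ι (U → V → F)} (hf : LocF Φ f) (hg : LocF Φ g) :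
    LocF Φ (f * g) := fun S => by
  rw [SF.mul_def]
  refine Frame.Loc.sum _ fun T hT => ?_
  rw [Finset.mem_powerset] at hT
  exact ((hf T).mono hT).mul ((hg (S \ T)).mono Finset.sdiff_subset)

theorem LocF.algebraMap {Φ : Frame ι U V} (c : F) :
    LocF Φ (algebraMap F (SF ι (U → V → F)) c) := fun S => by
  rw [SF.algebraMap_apply]
  by_cases h : S = ∅
  · rw [if_pos h]; exact Frame.Loc.algebraMap _ _
  · rw [if_neg h]; exact Frame.Loc.zero _

theorem LocF.aeval {Φ : Frame ι U V} {J : Type*} (l : J → SF ι (U → V → F))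
    (hl : ∀ j, LocF Φ (l j)) (P : MvPolynomial J F) : LocF Φ (MvPolynomial.aeval l P) := by
  induction P using MvPolynomial.induction_on with
  | C a => rw [algHom_C]; exact LocF.algebraMap a
  | add p q hp hq => rw [map_add]; exact hp.add hq
  | mul_X p k hp => rw [map_mul, aeval_X]; exact hp.mul (hl k)

section gates
variable {Φ : Frame ι U V} {z X : ℝ} {T : ℕ}

/-- The chain rule. -/
theorem dd_aeval {J : Type*} [Fintype J] [DecidableEq J] (l : J → SF ι (U → V → F)) (i : ι)
    (P : MvPolynomial J F) : SF.dd i (aeval l P) =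
      ∑ j, SF.dd i (l j) * SF.sg i (aeval l (pderiv j P)) := by
  induction P using MvPolynomial.induction_on with
  | C a =>
    rw [algHom_C, SF.dd_algebraMap]
    symm
    refine Finset.sum_eq_zero fun j _ => ?_
    rw [pderiv_C, map_zero]
    have : SF.sg i (0 : SF ι (U → V → F)) = 0 := by ext B; simp [SF.sg]
    rw [this, mul_zero]
  | add p q hp hq =>
    rw [map_add, SF.dd_add, hp, hq, ← Finset.sum_add_distrib]
    refine Finset.sum_congr rfl fun j _ => ?_
    have : ∀ f g : SF ι (U → V → F), SF.sg i (f + g) = SF.sg i f + SF.sg i g := by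
      intro f g; ext B; by_cases h : i ∈ B <;> simp [SF.sg, h]
    rw [map_add, map_add, this, mul_add]
  | mul_X p k hp =>
    have hadd : ∀ f g : SF ι (U → V → F), SF.sg i (f + g) = SF.sg i f + SF.sg i g := by
      intro f g; ext B; by_cases h : i ∈ B <;> simp [SF.sg, h]
    have h0 : SF.sg i (0 : SF ι (U → V → F)) = 0 := by ext B; simp [SF.sg]
    rw [map_mul, aeval_X, SF.dd_mul, hp, Finset.sum_mul]
    have h1 : ∀ j, SF.dd i (l j) * SF.sg i (aeval l (pderiv j (p * X k))) =
        SF.dd i (l j) * SF.sg i (aeval l (pderiv j p)) * SF.sg i (l k) +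
          (if j = k then SF.sg i (aeval l p) * SF.dd i (l k) else 0) := by
      intro j
      rw [Derivation.leibniz, smul_eq_mul, smul_eq_mul, map_add, map_mul, map_mul, aeval_X, hadd,
        SF.sg_mul, SF.sg_mul]
      by_cases hjk : j = k
      · subst hjk
        rw [if_pos rfl, pderiv_X_self, map_one]
        have : SF.sg i (1 : SF ι (U → V → F)) = 1 := by
          ext B
          by_cases h : i ∈ B
          · rw [SF.sg_apply_of_mem h, SF.one_def, if_neg (Finset.ne_empty_of_mem h)]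
          · rw [SF.sg_apply_of_notMem h]
        rw [this]; ring
      · rw [if_neg hjk, pderiv_X_of_ne (fun h => hjk h.symm), map_zero, h0]; ring
    rw [Finset.sum_congr rfl fun j _ => h1 j, Finset.sum_add_distrib, Finset.sum_ite_eq' Finset.univ k]
    simp

theorem count_le (k : ℕ) (hk : 1 ≤ k) : (2:ℝ) ^ (k - 1) * 2 ^ ((k - 1) ^ 2) ≤ 2 ^ (k ^ 2) := by
  obtain ⟨k, rfl⟩ := Nat.exists_eq_add_of_le' hk
  rw [← pow_add]
  refine pow_le_pow_right₀ (by norm_num) ?_
  simp only [Nat.add_sub_cancel]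
  nlinarith

/-- **Composition with an arbitrary polynomial in few arguments.** -/
theorem poly_bd (ht : Triv F Φ) (hz0 : 0 ≤ z) (hz1 : z ≤ 1) (hX : 0 ≤ X) (hs : Scale F Φ T z)
    {J : Type*} [Fintype J] [DecidableEq J] (l : J → SF ι (U → V → F)) (hl : ∀ j, Good Φ T X (l j))
    (m : ℝ) (hm : 1 ≤ m) (hJ : (Fintype.card J : ℝ) ≤ m) :
    ∀ (n : ℕ) (S : Finset ι), S.card = n → ∀ P : MvPolynomial J F,
      Bd Φ z X (m ^ n * 2 ^ (n ^ 2)) S ((aeval l P : SF ι (U → V → F)) S) := by
  intro n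
  induction n using Nat.strong_induction_on with
  | _ n ih =>
    intro S hS P
    by_cases hn : n = 0
    · subst hn
      rw [Finset.card_eq_zero] at hS
      subst hS
      have h1 : Φ.Loc ∅ ((aeval l P : SF ι (U → V → F)) ∅) :=
        (LocF.aeval l (fun j S => (hl j S).1) P) ∅
      have h2 := Bd.const (z := z) (X := X) ht h1
      simpa using h2
    · obtain ⟨i, hi⟩ : S.Nonempty := Finset.card_pos.1 (by omega)
      set B := S.erase i with hB
      have hiB : i ∉ B := Finset.notMem_erase i S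
      have hSB : insert i B = S := Finset.insert_erase hi
      have hBc : B.card = n - 1 := by rw [hB, Finset.card_erase_of_mem hi, hS]
      have h1 : (aeval l P : SF ι (U → V → F)) S = ∑ j, ∑ C ∈ B.powerset,
          (l j (insert i C)) * ((aeval l (pderiv j P) : SF ι (U → V → F)) (B \ C)) := by
        rw [← hSB, ← SF.dd_apply_of_notMem hiB (aeval l P : SF ι (U → V → F)), dd_aeval,
          SF.sum_apply]
        refine Finset.sum_congr rfl fun j _ => ?_
        rw [SF.mul_def]
        refine Finset.sum_congr rfl fun C hC => ?_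
        rw [Finset.mem_powerset] at hC
        rw [SF.dd_apply_of_notMem (fun h => hiB (hC h)),
          SF.sg_apply_of_notMem (fun h => hiB (Finset.mem_sdiff.1 h).1)]
      rw [h1]
      have h2 : Bd Φ z X (∑ _j : J, ∑ _C ∈ B.powerset, (m ^ (n - 1) * 2 ^ ((n - 1) ^ 2))) S
          (∑ j, ∑ C ∈ B.powerset,
          (l j (insert i C)) * ((aeval l (pderiv j P) : SF ι (U → V → F)) (B \ C))) := by
        refine Bd.sum _ fun j _ => Bd.sum _ fun C hC => ?_
        rw [Finset.mem_powerset] at hC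
        have hc1 : (B \ C).card ≤ n - 1 := (Finset.card_le_card Finset.sdiff_subset).trans hBc.le
        have h3 := ih (B \ C).card (by omega) (B \ C) rfl (pderiv j P)
        have h4 : Bd Φ z X (m ^ (n - 1) * 2 ^ ((n - 1) ^ 2)) (B \ C)
            ((aeval l (pderiv j P) : SF ι (U → V → F)) (B \ C)) := by
          refine h3.mono hX ?_
          have h5 : m ^ (B \ C).card ≤ m ^ (n - 1) := pow_le_pow_right₀ hm hc1
          have h6 : (2:ℝ) ^ ((B \ C).card ^ 2) ≤ 2 ^ ((n - 1) ^ 2) :=
            pow_le_pow_right₀ (by norm_num) (Nat.pow_le_pow_left hc1 2)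
          have h7 : 0 ≤ m := zero_le_one.trans hm
          gcongr
        have h5 := Bd.block ht hz0 hz1 hX hs (hl j (insert i C)) (Finset.insert_nonempty i C)
          (S := B \ C) (by
            rw [Finset.disjoint_left]
            intro x hx hx'
            rw [Finset.mem_sdiff] at hx'
            rcases Finset.mem_insert.1 hx with h | h
            · exact hiB (h ▸ hx'.1)
            · exact hx'.2 h) h4 (one_le_mul_of_one_le_of_one_le (one_le_pow₀ hm)
              (one_le_pow₀ (by norm_num)))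
        have h6 : insert i C ∪ B \ C = S := by
          rw [Finset.insert_union, Finset.union_sdiff_of_subset hC, hSB]
        rw [h6] at h5
        exact h5
      refine h2.mono hX ?_
      rw [Finset.sum_const, Finset.sum_const, Finset.card_univ, Finset.card_powerset, hBc]
      simp only [nsmul_eq_mul, Nat.cast_pow, Nat.cast_ofNat]
      have h7 : 0 ≤ m := zero_le_one.trans hm
      calc (Fintype.card J : ℝ) * (2 ^ (n - 1) * (m ^ (n - 1) * 2 ^ ((n - 1) ^ 2)))
          ≤ m * (2 ^ (n - 1) * (m ^ (n - 1) * 2 ^ ((n - 1) ^ 2))) := by gcongr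
        _ = (m ^ (n - 1) * m) * (2 ^ (n - 1) * 2 ^ ((n - 1) ^ 2)) := by ring
        _ = m ^ n * (2 ^ (n - 1) * 2 ^ ((n - 1) ^ 2)) := by
            rw [← pow_succ, Nat.sub_add_cancel (by omega)]
        _ ≤ m ^ n * 2 ^ (n ^ 2) := by
            have := count_le n (by omega)
            gcongr

end gates

end Pool.Agent.Y531
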