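import Pool.Agent.Y531.Block
import Pool.Agent.Y531.Bits

/-!
# Permanents with labelled rows which realise the complementation matrix
-/

set_option autoImplicit false
set_option linter.unusedSectionVars false
set_option maxHeartbeats 1000000

namespace Pool.Agent.Y531

open Finset

section cols
variable (a b h k' : ℕ)

/-- The columns: a block for each label, and dummies. -/
abbrev Col := (Fin b × (Fin a × Fin h → Fin 3)) ⊕ ((Fin a × (Fin b × Fin h → Fin 3)) ⊕ Fin k')

/-- The coupling rows. -/
def phi (r : Ed a b h × Bool) : Col a b h k' → ℤ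
  | Sum.inl (i, α) => if ∃ p : Fin a × Fin h, ((i, p) : Ed a b h) = r.1 ∧ α p = code r.2 then 1 else 0
  | Sum.inr (Sum.inl (j, γ)) =>
      if ∃ p : Fin b × Fin h, ((p.1, j, p.2) : Ed a b h) = r.1 ∧ γ p = code r.2 then 1 else 0
  | Sum.inr (Sum.inr _) => 0

/-- The labelled rows. -/
def lab (i : Fin b ⊕ Fin a) (u v : Ed a b h → Bool) : Col a b h k' → ℤ
  | Sum.inl (i', α) => match i with
    | Sum.inl i => if i' = i then ∏ p, chi (u (i, p)) (α p) else 0
    | Sum.inr _ => 0
  | Sum.inr (Sum.inl (j', γ)) => match i with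
    | Sum.inl _ => 0
    | Sum.inr j => if j' = j then ∏ p : Fin b × Fin h, chi (v (p.1, j, p.2)) (γ p) else 0
  | Sum.inr (Sum.inr _) => 0

variable {a b h k'}

theorem lab_disj {i j : Fin b ⊕ Fin a} (hij : i ≠ j) (u v : Ed a b h → Bool) (c : Col a b h k') :
    lab a b h k' i u v c = 0 ∨ lab a b h k' j u v c = 0 := by
  rcases c with ⟨i', α⟩ | ⟨j', γ⟩ | c
  · rcases i with i | i
    · rcases j with j | j
      · by_cases h1 : i' = i
        · right
          show (if i' = j then _ else (0:ℤ)) = 0
          rw [if_neg]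
          rintro rfl
          exact hij (by rw [h1])
        · left
          show (if i' = i then _ else (0:ℤ)) = 0
          rw [if_neg h1]
      · right; rfl
    · left; rfl
  · rcases i with i | i
    · left; rfl
    · rcases j with j | j
      · right; rfl
      · by_cases h1 : j' = i
        · right
          show (if j' = j then _ else (0:ℤ)) = 0
          rw [if_neg]
          rintro rfl
          exact hij (by rw [h1])
        · left
          show (if j' = i then _ else (0:ℤ)) = 0
          rw [if_neg h1]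
  · left; rfl

/-- The sets of the two sides. -/
def setL (i : Fin b) (u : Ed a b h → Bool) : Finset (Ed a b h × Bool) :=
  Finset.univ.image (fun p : Fin a × Fin h => (((i, p) : Ed a b h), u (i, p)))
def setR (j : Fin a) (v : Ed a b h → Bool) : Finset (Ed a b h × Bool) :=
  Finset.univ.image (fun p : Fin b × Fin h => (((p.1, j, p.2) : Ed a b h), v (p.1, j, p.2)))

theorem mem_setL {i : Fin b} {u : Ed a b h → Bool} {r : Ed a b h × Bool} :
    r ∈ setL i u ↔ r.1.1 = i ∧ r.2 = u r.1 := by
  rw [setL, Finset.mem_image]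
  constructor
  · rintro ⟨p, _, rfl⟩
    exact ⟨rfl, rfl⟩
  · rintro ⟨h1, h2⟩
    refine ⟨r.1.2, Finset.mem_univ _, ?_⟩
    obtain ⟨⟨r1, r2⟩, r3⟩ := r
    simp only at h1 h2
    subst h1
    rw [h2]

theorem mem_setR {j : Fin a} {v : Ed a b h → Bool} {r : Ed a b h × Bool} :
    r ∈ setR j v ↔ r.1.2.1 = j ∧ r.2 = v r.1 := by
  rw [setR, Finset.mem_image]
  constructor
  · rintro ⟨p, _, rfl⟩
    exact ⟨rfl, rfl⟩
  · rintro ⟨h1, h2⟩
    refine ⟨(r.1.1, r.1.2.2), Finset.mem_univ _, ?_⟩
    obtain ⟨⟨r1, r2, r4⟩, r3⟩ := r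
    simp only at h1 h2
    subst h1
    rw [h2]

theorem card_setL (i : Fin b) (u : Ed a b h → Bool) : (setL i u).card = a * h := by
  rw [setL, Finset.card_image_of_injective, Finset.card_univ, Fintype.card_prod, Fintype.card_fin,
    Fintype.card_fin]
  intro p q hpq
  simp only [Prod.mk.injEq, true_and] at hpq
  exact hpq.1

theorem card_setR (j : Fin a) (v : Ed a b h → Bool) : (setR j v).card = b * h := by
  rw [setR, Finset.card_image_of_injective, Finset.card_univ, Fintype.card_prod, Fintype.card_fin,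
    Fintype.card_fin]
  intro p q hpq
  simp only [Prod.mk.injEq, true_and] at hpq
  exact Prod.ext hpq.1.1 hpq.1.2

theorem Tht_left (i : Fin b) (u v : Ed a b h → Bool) :
    Tht (phi a b h k') (lab a b h k' (Sum.inl i) u v) =
      SF.sgl (setL i u) ((-1) ^ (a * h) * ((a * h).factorial : ℤ)) := by
  refine SF.ext' fun M => ?_
  rw [Tht, SF.sum_apply, SF.sgl_apply]
  have h1 : ∀ c, (SF.cst (lab a b h k' (Sum.inl i) u v c) * the (phi a b h k') c : SF _ ℤ) M =
      (-1) ^ M.card * (M.card.factorial : ℤ) *
        (lab a b h k' (Sum.inl i) u v c * ∏ r ∈ M, phi a b h k' r c) := by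
    intro c
    rw [SF.cst_mul_apply, the_apply]
    ring
  rw [Finset.sum_congr rfl fun c _ => h1 c, ← Finset.mul_sum, Fintype.sum_sum_type,
    Fintype.sum_prod_type, Finset.sum_eq_single i]
  · have h2 : ∑ x, lab a b h k' (Sum.inl i) u v (Sum.inr x) * ∏ r ∈ M, phi a b h k' r (Sum.inr x) = 0 := by
      refine Finset.sum_eq_zero fun x _ => ?_
      rcases x with ⟨j', γ⟩ | c
      · show (0:ℤ) * _ = 0
        rw [zero_mul]
      · show (0:ℤ) * _ = 0
        rw [zero_mul]
    rw [h2, add_zero]
    have h3 := block_sum (fun p : Fin a × Fin h => ((i, p) : Ed a b h))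
      (fun p q hpq => (Prod.mk.injEq _ _ _ _ ▸ hpq).2) u M
    have h4 : ∑ α, lab a b h k' (Sum.inl i) u v (Sum.inl (i, α)) *
        ∏ r ∈ M, phi a b h k' r (Sum.inl (i, α)) = if M = setL i u then 1 else 0 := by
      rw [setL, ← h3]
      refine Finset.sum_congr rfl fun α _ => ?_
      congr 1
      show (if i = i then _ else (0:ℤ)) = _
      rw [if_pos rfl]
    rw [h4]
    by_cases hM : M = setL i u
    · rw [if_pos hM, if_pos hM, hM, card_setL, mul_one]
    · rw [if_neg hM, if_neg hM, mul_zero]
  · intro i' _ hi'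
    refine Finset.sum_eq_zero fun α _ => ?_
    show (if i' = i then _ else (0:ℤ)) * _ = 0
    rw [if_neg hi', zero_mul]
  · intro h2
    exact absurd (Finset.mem_univ i) h2

theorem Tht_right (j : Fin a) (u v : Ed a b h → Bool) :
    Tht (phi a b h k') (lab a b h k' (Sum.inr j) u v) =
      SF.sgl (setR j v) ((-1) ^ (b * h) * ((b * h).factorial : ℤ)) := by
  refine SF.ext' fun M => ?_
  rw [Tht, SF.sum_apply, SF.sgl_apply]
  have h1 : ∀ c, (SF.cst (lab a b h k' (Sum.inr j) u v c) * the (phi a b h k') c : SF _ ℤ) M =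
      (-1) ^ M.card * (M.card.factorial : ℤ) *
        (lab a b h k' (Sum.inr j) u v c * ∏ r ∈ M, phi a b h k' r c) := by
    intro c
    rw [SF.cst_mul_apply, the_apply]
    ring
  rw [Finset.sum_congr rfl fun c _ => h1 c, ← Finset.mul_sum, Fintype.sum_sum_type,
    Fintype.sum_sum_type]
  have h2 : ∑ x, lab a b h k' (Sum.inr j) u v (Sum.inl x) * ∏ r ∈ M, phi a b h k' r (Sum.inl x) = 0 := by
    refine Finset.sum_eq_zero fun x _ => ?_
    show (0:ℤ) * _ = 0
    rw [zero_mul]
  have h2' : ∑ x, lab a b h k' (Sum.inr j) u v (Sum.inr (Sum.inr x)) *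
      ∏ r ∈ M, phi a b h k' r (Sum.inr (Sum.inr x)) = 0 := by
    refine Finset.sum_eq_zero fun x _ => ?_
    show (0:ℤ) * _ = 0
    rw [zero_mul]
  rw [h2, h2', add_zero, zero_add, Fintype.sum_prod_type, Finset.sum_eq_single j]
  · have h3 := block_sum (fun p : Fin b × Fin h => ((p.1, j, p.2) : Ed a b h))
      (fun p q hpq => by
        simp only [Prod.mk.injEq, true_and] at hpq
        exact Prod.ext hpq.1 hpq.2) v M
    have h4 : ∑ γ, lab a b h k' (Sum.inr j) u v (Sum.inr (Sum.inl (j, γ))) *
        ∏ r ∈ M, phi a b h k' r (Sum.inr (Sum.inl (j, γ))) = if M = setR j v then 1 else 0 := by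
      rw [setR, ← h3]
      refine Finset.sum_congr rfl fun α _ => ?_
      congr 1
      show (if j = j then _ else (0:ℤ)) = _
      rw [if_pos rfl]
    rw [h4]
    by_cases hM : M = setR j v
    · rw [if_pos hM, if_pos hM, hM, card_setR, mul_one]
    · rw [if_neg hM, if_neg hM, mul_zero]
  · intro i' _ hi'
    refine Finset.sum_eq_zero fun α _ => ?_
    show (if i' = j then _ else (0:ℤ)) * _ = 0
    rw [if_neg hi', zero_mul]
  · intro h2
    exact absurd (Finset.mem_univ j) h2

/-- The product over the labels. -/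
theorem prod_Tht (u v : Ed a b h → Bool) (G : SF (Ed a b h × Bool) ℤ) (hG : G ∅ = 1) :
    (G * ∏ i, Tht (phi a b h k') (lab a b h k' i u v) : SF _ ℤ) Finset.univ =
      if v = fun e => !(u e) then ((-1) ^ (a * h) * ((a * h).factorial : ℤ)) ^ b *
        ((-1) ^ (b * h) * ((b * h).factorial : ℤ)) ^ a else 0 := by
  classical
  rw [Fintype.prod_sum_type, Finset.prod_congr rfl fun i _ => Tht_left i u v,
    Finset.prod_congr rfl fun j _ => Tht_right j u v,
    SF.prod_sgl_disj _ (fun i => setL i u) (fun _ => (-1) ^ (a * h) * ((a * h).factorial : ℤ)),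
    SF.prod_sgl_disj _ (fun j => setR j v) (fun _ => (-1) ^ (b * h) * ((b * h).factorial : ℤ))]
  · rw [Finset.prod_const, Finset.prod_const, Finset.card_univ, Finset.card_univ, Fintype.card_fin,
      Fintype.card_fin]
    have hL : ∀ r, r ∈ (Finset.univ.biUnion fun i : Fin b => setL i u) ↔ r.2 = u r.1 := by
      intro r
      rw [Finset.mem_biUnion]
      constructor
      · rintro ⟨i, _, hi⟩
        exact (mem_setL.1 hi).2
      · intro hr
        exact ⟨r.1.1, Finset.mem_univ _, mem_setL.2 ⟨rfl, hr⟩⟩
    have hR : ∀ r, r ∈ (Finset.univ.biUnion fun j : Fin a => setR j v) ↔ r.2 = v r.1 := by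
      intro r
      rw [Finset.mem_biUnion]
      constructor
      · rintro ⟨i, _, hi⟩
        exact (mem_setR.1 hi).2
      · intro hr
        exact ⟨r.1.2.1, Finset.mem_univ _, mem_setR.2 ⟨rfl, hr⟩⟩
    by_cases huv : v = fun e => !(u e)
    · rw [if_pos huv, SF.sgl_mul]
      · have hun : (Finset.univ.biUnion fun i : Fin b => setL i u) ∪
            (Finset.univ.biUnion fun j : Fin a => setR j v) = Finset.univ := by
          rw [Finset.eq_univ_iff_forall]
          intro r
          rw [Finset.mem_union, hL, hR, huv]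
          cases h1 : r.2 <;> cases h2 : u r.1 <;> simp [h2]
        rw [hun, mul_comm, SF.sgl_mul_apply, if_pos (Finset.Subset.refl _), Finset.sdiff_self, hG,
          mul_one]
      · rw [Finset.disjoint_left]
        intro r hr hr'
        rw [hL] at hr
        rw [hR, hr, huv] at hr'
        cases h2 : u r.1 <;> simp [h2] at hr'
    · rw [if_neg huv, SF.sgl_mul_zero, mul_zero]
      · rfl
      · intro hdis
        apply huv
        funext e
        rw [Finset.disjoint_left] at hdis
        have h1 := hdis ((hL (e, u e)).2 rfl)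
        rw [hR] at h1
        simp only at h1
        cases h2 : u e <;> cases h3 : v e <;> simp [h2, h3] at h1 ⊢
  · intro i _ j _ hij
    rw [Finset.disjoint_left]
    intro r hr hr'
    exact hij ((mem_setR.1 hr).1.symm.trans (mem_setR.1 hr').1)
  · intro i _ j _ hij
    rw [Finset.disjoint_left]
    intro r hr hr'
    exact hij ((mem_setL.1 hr).1.symm.trans (mem_setL.1 hr').1)

end cols

theorem exists_perm_ext {ι : Type*} {n : ℕ} (e ρ : ι → Fin n) (he : Function.Injective e)
    (hρ : Function.Injective ρ) : ∃ π : Equiv.Perm (Fin n), ∀ i, π (e i) = ρ i := by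
  classical
  let e1 : {x // x ∈ Set.range e} ≃ {x // x ∈ Set.range ρ} :=
    (Equiv.ofInjective e he).symm.trans (Equiv.ofInjective ρ hρ)
  refine ⟨e1.extendSubtype, fun i => ?_⟩
  rw [Equiv.extendSubtype_apply_of_mem e1 (e i) ⟨i, rfl⟩]
  have : (⟨e i, ⟨i, rfl⟩⟩ : {x // x ∈ Set.range e}) = Equiv.ofInjective e he i := rfl
  rw [this]
  show ((Equiv.ofInjective ρ hρ) ((Equiv.ofInjective e he).symm ((Equiv.ofInjective e he) i)) : Fin n) = ρ i
  rw [Equiv.symm_apply_apply]
  rfl

theorem prod_split {ι : Type*} [Fintype ι] [DecidableEq ι] {n : ℕ} {ρ : ι → Fin n}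
    (hρ : Function.Injective ρ) (g : Fin n → ℤ) :
    ∏ r, g r = (∏ i, g (ρ i)) * ∏ r ∈ Finset.univ.filter (fun r => ∀ i, ρ i ≠ r), g r := by
  have h1 : (Finset.univ : Finset (Fin n)) = Finset.univ.map ⟨ρ, hρ⟩ ∪
      Finset.univ.filter (fun r => ∀ i, ρ i ≠ r) := by
    symm
    rw [Finset.eq_univ_iff_forall]
    intro r
    rw [Finset.mem_union, Finset.mem_map, Finset.mem_filter]
    by_cases h : ∃ i, ρ i = r
    · obtain ⟨i, hi⟩ := h
      exact Or.inl ⟨i, Finset.mem_univ i, hi⟩
    · push Not at h
      exact Or.inr ⟨Finset.mem_univ r, h⟩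
  conv_lhs => rw [h1]
  rw [Finset.prod_union, Finset.prod_map]
  · rfl
  · rw [Finset.disjoint_left]
    intro r hr hr'
    rw [Finset.mem_map] at hr
    obtain ⟨i, _, hi⟩ := hr
    exact (Finset.mem_filter.1 hr').2 i hi

/-- **The gadget.** -/
theorem gadget (a b h n : ℕ) (hn : b * 3 ^ (a * h) + a * 3 ^ (b * h) ≤ n)
    (ρ : Fin b ⊕ Fin a → Fin n) (hρ : Function.Injective ρ) :
    ∃ (A : Fin n × Fin n → ℤ)
      (β : (Fin b ⊕ Fin a) → (Ed a b h → Bool) → (Ed a b h → Bool) → Fin n → ℤ),
      (∀ i u v u' v', (bitFrame a b h).same i u v u' v' → β i u v = β i u' v') ∧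
      ∀ u v, (∑ σ : Equiv.Perm (Fin n), (∏ i, β i u v (σ (ρ i))) *
        ∏ r ∈ Finset.univ.filter (fun r => ∀ i, ρ i ≠ r), A (r, σ r)) = 0 ↔
          v ≠ fun e => !(u e) := by
  classical
  set k' := n - (b * 3 ^ (a * h) + a * 3 ^ (b * h)) with hk'
  have hC : Fintype.card (Col a b h k') = n := by
    simp only [Fintype.card_sum, Fintype.card_prod, Fintype.card_fun, Fintype.card_fin]
    omega
  have hber : ∀ x : ℕ, 1 + 2 * x ≤ 3 ^ x := by
    intro x
    induction x with
    | zero => simp
    | succ x ih => rw [pow_succ]; omega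
  have hle : (b + a) + b * (a * h) * 2 ≤ n := by
    have h1 := Nat.mul_le_mul_left b (hber (a * h))
    have h2 := Nat.mul_le_mul_left a (hber (b * h))
    have h3 : b * (1 + 2 * (a * h)) = b + b * (a * h) * 2 := by ring
    have h4 : a * (1 + 2 * (b * h)) = a + b * (a * h) * 2 := by ring
    omega
  set k := n - ((b + a) + b * (a * h) * 2) with hk
  let ψ : Fin n ≃ Col a b h k' := (Fintype.equivFinOfCardEq hC).symm
  let xs : (Ed a b h → Bool) → (Ed a b h → Bool) → List (Col a b h k' → ℤ) := fun u v =>
    List.ofFn fun t : Fin (b + a) => lab a b h k' (finSumFinEquiv.symm t) u v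
  let rest : List (Col a b h k' → ℤ) :=
    (Finset.univ : Finset (Ed a b h × Bool)).toList.map (phi a b h k') ++
      List.replicate k (fun _ => 1)
  let L : (Ed a b h → Bool) → (Ed a b h → Bool) → List (Col a b h k' → ℤ) := fun u v =>
    xs u v ++ rest
  have hlen0 : ((Finset.univ : Finset (Ed a b h × Bool)).toList.map (phi a b h k')).length =
      b * (a * h) * 2 := by
    rw [List.length_map, Finset.length_toList, Finset.card_univ]
    simp only [Fintype.card_prod, Fintype.card_fin, Fintype.card_bool]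
  have hlen : ∀ u v, (L u v).length = n := by
    intro u v
    simp only [L, xs, rest, List.length_append, List.length_ofFn, List.length_replicate, hlen0]
    omega
  let N : (Ed a b h → Bool) → (Ed a b h → Bool) → Fin n → Col a b h k' → ℤ := fun u v r =>
    (L u v).getD r 0
  have hN : ∀ u v, List.ofFn (N u v) = L u v := by
    intro u v
    apply List.ext_getElem
    · rw [List.length_ofFn, hlen]
    · intro i h1 h2
      rw [List.getElem_ofFn]
      simp only [N]
      rw [List.getD_eq_getElem _ _ h2]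
  let e0 : Fin b ⊕ Fin a → Fin n := fun i => Fin.castLE (by omega) (finSumFinEquiv i)
  have he0 : Function.Injective e0 := (Fin.castLE_injective _).comp finSumFinEquiv.injective
  obtain ⟨π, hπ⟩ := exists_perm_ext e0 ρ he0 hρ
  have hNlab : ∀ u v i, N u v (e0 i) = lab a b h k' i u v := by
    intro u v i
    have h1 : ((e0 i : Fin n) : ℕ) < (xs u v).length := by
      simp only [xs, List.length_ofFn, e0, Fin.val_castLE]
      exact (finSumFinEquiv i).2
    simp only [N, L]
    rw [List.getD_append _ _ _ _ h1, List.getD_eq_getElem _ _ h1]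
    simp only [xs, List.getElem_ofFn, e0, Fin.val_castLE, Fin.eta, Equiv.symm_apply_apply]
  have hNrest : ∀ u v u' v' (r : Fin n), (∀ i, e0 i ≠ r) → N u v r = N u' v' r := by
    intro u v u' v' r hr
    have h1 : b + a ≤ (r : ℕ) := by
      by_contra h2
      rw [not_le] at h2
      refine hr (finSumFinEquiv.symm ⟨r, h2⟩) ?_
      ext
      simp only [e0, Equiv.apply_symm_apply, Fin.val_castLE]
    have h2 : ∀ u v, N u v r = rest.getD (r - (b + a)) 0 := by
      intro u v
      simp only [N, L]
      rw [List.getD_append_right]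
      · simp only [xs, List.length_ofFn]
      · simp only [xs, List.length_ofFn]; exact h1
    rw [h2, h2]
  refine ⟨fun x => N (fun _ => false) (fun _ => false) (π.symm x.1) (ψ x.2),
    fun i u v c => lab a b h k' i u v (ψ c), ?_, ?_⟩
  · rintro (i | j) u v u' v' hsame
    · funext c
      show lab a b h k' (Sum.inl i) u v (ψ c) = lab a b h k' (Sum.inl i) u' v' (ψ c)
      rcases ψ c with ⟨i', α⟩ | ⟨j', γ⟩ | c
      · show (if i' = i then _ else (0:ℤ)) = (if i' = i then _ else (0:ℤ))
        congr 1
        refine Finset.prod_congr rfl fun p _ => ?_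
        rw [hsame (i, p) rfl]
      · rfl
      · rfl
    · funext c
      show lab a b h k' (Sum.inr j) u v (ψ c) = lab a b h k' (Sum.inr j) u' v' (ψ c)
      rcases ψ c with ⟨i', α⟩ | ⟨j', γ⟩ | c
      · rfl
      · show (if j' = j then _ else (0:ℤ)) = (if j' = j then _ else (0:ℤ))
        congr 1
        refine Finset.prod_congr rfl fun p _ => ?_
        rw [hsame (p.1, j, p.2) rfl]
      · rfl
  · intro u v
    have h1 : (∑ σ : Equiv.Perm (Fin n), (∏ i, lab a b h k' i u v (ψ (σ (ρ i)))) *
        ∏ r ∈ Finset.univ.filter (fun r => ∀ i, ρ i ≠ r),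
          N (fun _ => false) (fun _ => false) (π.symm r) (ψ (σ r))) =
        ∑ σ : Equiv.Perm (Fin n), ∏ r, N u v r (ψ (σ r)) := by
      rw [← Equiv.sum_comp (Equiv.mulRight π) (fun σ => ∏ r, N u v r (ψ (σ r)))]
      refine Finset.sum_congr rfl fun σ _ => ?_
      have h0 : ∏ r, N u v r (ψ ((Equiv.mulRight π) σ r)) = ∏ r, N u v (π.symm r) (ψ (σ r)) := by
        rw [← Equiv.prod_comp π.symm]
        refine Finset.prod_congr rfl fun r _ => ?_
        simp only [Equiv.coe_mulRight, Equiv.Perm.coe_mul, Function.comp_apply,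
          Equiv.apply_symm_apply]
      rw [h0, prod_split hρ]
      congr 1
      · refine Finset.prod_congr rfl fun i _ => ?_
        have h2 : π.symm (ρ i) = e0 i := by rw [← hπ i, Equiv.symm_apply_apply]
        rw [h2, hNlab]
      · refine Finset.prod_congr rfl fun r hr => ?_
        rw [Finset.mem_filter] at hr
        rw [hNrest (fun _ => false) (fun _ => false) u v (π.symm r) (fun i hi => hr.2 i (by
          rw [← hπ i, hi, Equiv.apply_symm_apply]))]
    have h2 : J (L u v) ∅ = (k.factorial : ℤ) *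
        J (xs u v ++ (Finset.univ : Finset (Ed a b h × Bool)).toList.map (phi a b h k')) ∅ := by
      have h3 : L u v = (xs u v ++ (Finset.univ : Finset (Ed a b h × Bool)).toList.map
          (phi a b h k')) ++ List.replicate k (fun _ => 1) := by
        simp only [L, rest, List.append_assoc]
      rw [h3, J_append_ones]
      rw [Finset.card_empty, List.length_append, hlen0, hC]
      simp only [xs, List.length_ofFn]
      omega
    have h3 : ((xs u v).map (Tht (phi a b h k'))).prod =
        ∏ i, Tht (phi a b h k') (lab a b h k' i u v) := by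
      simp only [xs, List.map_ofFn, List.prod_ofFn]
      rw [← Equiv.prod_comp finSumFinEquiv.symm]
      rfl
    show (∑ σ : Equiv.Perm (Fin n), (∏ i, lab a b h k' i u v (ψ (σ (ρ i)))) *
        ∏ r ∈ Finset.univ.filter (fun r => ∀ i, ρ i ≠ r),
          N (fun _ => false) (fun _ => false) (π.symm r) (ψ (σ r))) = 0 ↔ _
    rw [h1, sum_perm_eq_J (N u v) ψ, hN, h2, J_labelled, h3, prod_Tht u v _ (Gam_empty _ _)]
    · by_cases huv : v = fun e => !(u e)
      · rw [if_pos huv]
        refine iff_of_false ?_ (not_not.2 huv)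
        have : (k.factorial : ℤ) ≠ 0 := by exact_mod_cast k.factorial_ne_zero
        have h4 : ((a * h).factorial : ℤ) ≠ 0 := by exact_mod_cast (a * h).factorial_ne_zero
        have h5 : ((b * h).factorial : ℤ) ≠ 0 := by exact_mod_cast (b * h).factorial_ne_zero
        positivity
      · rw [if_neg huv, mul_zero]
        exact iff_of_true rfl huv
    · simp only [xs, List.pairwise_ofFn]
      intro i j hij c
      exact lab_disj (fun h => hij.ne (finSumFinEquiv.symm.injective h)) u v c
    · intro x _ c hc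
      exact absurd hc (Finset.notMem_empty c)

end Pool.Agent.Y531
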