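import Pool.Agent.Y531.Comp
import Pool.Agent.Y531.Gadget

/-!
# A generic integral base point, and the rank of the top coefficient
-/

set_option autoImplicit false
set_option linter.unusedSectionVars false
set_option maxHeartbeats 1000000

namespace Pool.Agent.Y531

open Finset MvPolynomial Pool.Agent.W942

section val
variable {F Γ₀ : Type*} [Field F] [LinearOrderedCommGroupWithZero Γ₀] (v : Valuation F Γ₀)

theorem val_mul_lt {x y : F} (hx : v x < 1) (hy : v y ≤ 1) : v (x * y) < 1 := by
  rw [map_mul]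
  exact (mul_le_mul_right hy (v x)).trans_lt (by rwa [mul_one])

theorem val_prod_sub {J : Type*} (s : Finset J) (x y : J → F) (hy : ∀ j ∈ s, v (y j) ≤ 1)
    (hxy : ∀ j ∈ s, v (x j - y j) < 1) :
    v (∏ j ∈ s, y j) ≤ 1 ∧ v (∏ j ∈ s, x j - ∏ j ∈ s, y j) < 1 := by
  classical
  induction s using Finset.induction_on with
  | empty => simp
  | insert a s ha ih =>
    obtain ⟨h1, h2⟩ := ih (fun j hj => hy j (Finset.mem_insert_of_mem hj))
      (fun j hj => hxy j (Finset.mem_insert_of_mem hj))
    have h3 := hy a (Finset.mem_insert_self a s)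
    have h4 := hxy a (Finset.mem_insert_self a s)
    rw [Finset.prod_insert ha, Finset.prod_insert ha]
    constructor
    · rw [map_mul]
      exact mul_le_one' h3 h1
    · have h5 : x a * ∏ j ∈ s, x j - y a * ∏ j ∈ s, y j =
          (x a - y a) * ∏ j ∈ s, x j + (∏ j ∈ s, x j - ∏ j ∈ s, y j) * y a := by ring
      rw [h5]
      refine Valuation.map_add_lt v ?_ ?_
      · refine val_mul_lt v h4 ?_
        have h6 : ∏ j ∈ s, x j = (∏ j ∈ s, x j - ∏ j ∈ s, y j) + ∏ j ∈ s, y j := by ring
        rw [h6]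
        exact Valuation.map_add_le v h2.le h1
      · exact val_mul_lt v h2 h3

theorem val_det_sub {m : Type*} [Fintype m] [DecidableEq m] (M P : Matrix m m F)
    (hP : ∀ i j, v (P i j) ≤ 1) (hMP : ∀ i j, v (M i j - P i j) < 1) :
    v (M.det - P.det) < 1 := by
  rw [Matrix.det_apply, Matrix.det_apply, ← Finset.sum_sub_distrib]
  refine Valuation.map_sum_lt v one_ne_zero fun σ _ => ?_
  rw [← smul_sub]
  have h1 := (val_prod_sub v Finset.univ (fun i => M (σ i) i) (fun i => P (σ i) i)
    (fun i _ => hP _ _) (fun i _ => hMP _ _)).2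
  rcases Int.units_eq_one_or (Equiv.Perm.sign σ) with h | h
  · rw [h, one_smul]; exact h1
  · rw [h, Units.neg_smul, one_smul, Valuation.map_neg]; exact h1

end val

section int
variable {F Γ₀ : Type*} [Field F] [LinearOrderedCommGroupWithZero Γ₀] {v : Valuation F Γ₀}
  (hv : ∀ k : ℕ, k ≠ 0 → v (k : F) = 1)

include hv

theorem val_int_ne (k : ℤ) (hk : k ≠ 0) : v (k : F) = 1 := by
  have h1 : k.natAbs ≠ 0 := Int.natAbs_ne_zero.2 hk
  rcases Int.natAbs_eq k with h | h
  · rw [h, Int.cast_natCast]; exact hv _ h1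
  · rw [h, Int.cast_neg, Int.cast_natCast, Valuation.map_neg]; exact hv _ h1

theorem val_int_le (k : ℤ) : v (k : F) ≤ 1 := by
  by_cases hk : k = 0
  · rw [hk, Int.cast_zero, map_zero]; exact zero_le_one
  · exact (val_int_ne hv k hk).le

theorem charZero_of_val : CharZero F := by
  refine charZero_of_inj_zero fun k hk => ?_
  by_contra hk'
  have h1 := hv k hk'
  rw [hk, map_zero] at h1
  exact zero_ne_one h1

end int

/-- A nonzero polynomial does not vanish at some integral point. -/
theorem exists_int_point {F σ : Type*} [Field F] [CharZero F] (p : MvPolynomial σ F)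
    (hp : p ≠ 0) : ∃ A : σ → ℤ, eval (fun x => (A x : F)) p ≠ 0 := by
  by_contra hcon
  push Not at hcon
  apply hp
  have hinf : ∀ _ : σ, (Set.range (fun k : ℤ => (k : F))).Infinite := fun _ =>
    Set.infinite_range_of_injective Int.cast_injective
  refine MvPolynomial.funext_set (fun _ => Set.range (fun k : ℤ => (k : F))) hinf fun x hx => ?_
  have h1 : ∀ i, ∃ k : ℤ, (k : F) = x i := fun i => hx i (Set.mem_univ i)
  choose A hA using h1
  have h2 : x = fun i => (A i : F) := by
    funext i; rw [hA]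
  rw [h2, hcon, map_zero]

/-- The complementation matrix is invertible. -/
theorem det_compl_ne_zero {E : Type*} [Fintype E] [DecidableEq E]
    (P : Matrix (E → Bool) (E → Bool) ℤ) (hP : ∀ u v, P u v = 0 ↔ v ≠ fun e => !(u e)) :
    P.det ≠ 0 := by
  let κ : Equiv.Perm (E → Bool) := ⟨fun u e => !(u e), fun u e => !(u e),
    fun u => by funext e; simp, fun u => by funext e; simp⟩
  have h1 := Matrix.det_permute' κ P
  have h2 : P.submatrix id κ = Matrix.diagonal fun u => P u (κ u) := by
    ext u w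
    rw [Matrix.submatrix_apply, Matrix.diagonal_apply]
    by_cases h : u = w
    · subst h; rw [if_pos rfl]; rfl
    · rw [if_neg h, id, hP]
      intro h3
      exact h (κ.injective h3.symm)
  rw [h2, Matrix.det_diagonal] at h1
  intro h3
  rw [h3, mul_zero] at h1
  rw [Finset.prod_eq_zero_iff] at h1
  obtain ⟨u, _, hu⟩ := h1
  exact (hP u (κ u)).1 hu rfl

section main
variable {F : Type*} [Field F] {ι E : Type*} [Fintype ι] [DecidableEq ι] [Fintype E] [DecidableEq E]
  {n : ℕ}

/-- The matrix of restricted permanents, as polynomials of the base point. -/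
noncomputable def restM (F : Type*) [Field F] (ρ : ι → Fin n)
    (β : ι → (E → Bool) → (E → Bool) → Fin n → ℤ) :
    Matrix (E → Bool) (E → Bool) (MvPolynomial (Fin n × Fin n) F) :=
  Matrix.of fun u w => ∑ σ : Equiv.Perm (Fin n), (∏ i, C (β i u w (σ (ρ i)) : F)) *
    ∏ r ∈ Finset.univ.filter (fun r => ∀ i, ρ i ≠ r), X (r, σ r)

/-- The integral matrix of restricted permanents. -/
def restZ (ρ : ι → Fin n) (β : ι → (E → Bool) → (E → Bool) → Fin n → ℤ)
    (A : Fin n × Fin n → ℤ) : Matrix (E → Bool) (E → Bool) ℤ :=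
  Matrix.of fun u w => ∑ σ : Equiv.Perm (Fin n), (∏ i, β i u w (σ (ρ i))) *
    ∏ r ∈ Finset.univ.filter (fun r => ∀ i, ρ i ≠ r), A (r, σ r)

theorem eval_restM (ρ : ι → Fin n) (β : ι → (E → Bool) → (E → Bool) → Fin n → ℤ)
    (A : Fin n × Fin n → ℤ) :
    eval (fun x => (A x : F)) (restM F ρ β).det = ((restZ ρ β A).det : F) := by
  have h1 : ((restZ ρ β A).det : F) = (Int.castRingHom F) (restZ ρ β A).det := rfl
  rw [h1, RingHom.map_det, RingHom.map_det]
  congr 1
  ext u w
  simp only [RingHom.mapMatrix_apply, Matrix.map_apply, restM, restZ, Matrix.of_apply, map_sum,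
    map_mul, map_prod, eval_C, eval_X, Int.coe_castRingHom]
  push_cast
  rfl

theorem comp_per_eq (ρ : ι → Fin n) (hρ : Function.Injective ρ)
    (β : ι → (E → Bool) → (E → Bool) → Fin n → ℤ) (A : Fin n × Fin n → ℤ) (u w : E → Bool) :
    comp (fun x => (A x : F)) ρ (fun i u w c => (β i u w c : F)) (perX n F) Finset.univ u w =
      (restZ ρ β A u w : F) := by
  rw [comp_perX hρ, restZ, Matrix.of_apply]
  push_cast
  rfl

/-- Coefficients of polynomials with small coefficients are small. -/
theorem comp_small {Γ₀ : Type*} [LinearOrderedCommGroupWithZero Γ₀] {v : Valuation F Γ₀}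
    (hv : ∀ k : ℕ, k ≠ 0 → v (k : F) = 1) (ρ : ι → Fin n)
    (β : ι → (E → Bool) → (E → Bool) → Fin n → ℤ) (A : Fin n × Fin n → ℤ)
    (f : MvPolynomial (Fin n × Fin n) F) (hf : ∀ μ, v (coeff μ f) < 1)
    (S : Finset ι) (u w : E → Bool) :
    v (comp (fun x => (A x : F)) ρ (fun i u w c => (β i u w c : F)) f S u w) < 1 := by
  classical
  set cm := comp (fun x => (A x : F)) ρ (fun i u w c => (β i u w c : F)) with hcm
  have hmul : ∀ g g' : SF ι ((E → Bool) → (E → Bool) → F), (∀ S u w, v (g S u w) ≤ 1) →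
      (∀ S u w, v (g' S u w) ≤ 1) → ∀ S u w, v ((g * g') S u w) ≤ 1 := by
    intro g g' hg hg' S u w
    rw [SF.mul_def, Finset.sum_apply, Finset.sum_apply]
    refine Valuation.map_sum_le v fun T _ => ?_
    rw [Pi.mul_apply, Pi.mul_apply, map_mul]
    exact mul_le_one' (hg _ _ _) (hg' _ _ _)
  have hone : ∀ S u w, v ((1 : SF ι ((E → Bool) → (E → Bool) → F)) S u w) ≤ 1 := by
    intro S u w
    rw [SF.one_def]
    by_cases h : S = ∅
    · rw [if_pos h, Pi.one_apply, Pi.one_apply, map_one]
    · rw [if_neg h, Pi.zero_apply, Pi.zero_apply, map_zero]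
      exact zero_le_one
  have hpt : ∀ x S u w, v (pt (fun x => (A x : F)) ρ (fun i u w c => (β i u w c : F)) x S u w) ≤ 1 := by
    intro x S u w
    rw [pt]
    by_cases h : S = ∅
    · rw [if_pos h]; exact val_int_le hv _
    · rw [if_neg h, Finset.sum_apply, Finset.sum_apply]
      refine Valuation.map_sum_le v fun i _ => ?_
      by_cases h' : S = {i} ∧ ρ i = x.1
      · rw [if_pos h']; exact val_int_le hv _
      · rw [if_neg h', Pi.zero_apply, Pi.zero_apply, map_zero]
        exact zero_le_one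
  have hmon : ∀ μ : (Fin n × Fin n) →₀ ℕ, ∀ S u w, v (cm (monomial μ 1) S u w) ≤ 1 := by
    intro μ
    rw [hcm, comp, aeval_monomial, map_one, one_mul]
    rw [Finsupp.prod]
    refine Finset.prod_induction _
      (fun g : SF ι ((E → Bool) → (E → Bool) → F) => ∀ S u w, v (g S u w) ≤ 1) hmul hone ?_
    intro x _
    have hpow : ∀ k : ℕ, ∀ S u w,
        v ((pt (fun x => (A x : F)) ρ (fun i u w c => (β i u w c : F)) x ^ k) S u w) ≤ 1 := by
      intro k
      induction k with
      | zero => rw [pow_zero]; exact hone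
      | succ k ih => rw [pow_succ]; exact hmul _ _ ih (hpt x)
    exact hpow _
  rw [f.as_sum, map_sum, SF.sum_apply, Finset.sum_apply, Finset.sum_apply]
  refine Valuation.map_sum_lt v one_ne_zero fun μ _ => ?_
  have h1 : monomial μ (coeff μ f) = (coeff μ f) • (monomial μ (1 : F)) := by
    rw [smul_monomial, smul_eq_mul, mul_one]
  rw [h1, map_smul, SF.smul_apply, Pi.smul_apply, Pi.smul_apply, smul_eq_mul]
  exact val_mul_lt v (hf μ) (hmon μ S u w)

/-- **The rank of the top coefficient of an approximation of the permanent is full.** -/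
theorem full_rank {Γ₀ : Type*} [LinearOrderedCommGroupWithZero Γ₀] {v : Valuation F Γ₀}
    (hv : ∀ k : ℕ, k ≠ 0 → v (k : F) = 1) (ρ : ι → Fin n) (hρ : Function.Injective ρ)
    (β : ι → (E → Bool) → (E → Bool) → Fin n → ℤ) (A : Fin n × Fin n → ℤ)
    (hA : eval (fun x => (A x : F)) (restM F ρ β).det ≠ 0)
    (f : MvPolynomial (Fin n × Fin n) F) (hf : ∀ μ, v (coeff μ (f - perX n F)) < 1)
    {r : ℕ} (hr : HasRk (comp (fun x => (A x : F)) ρ (fun i u w c => (β i u w c : F)) f
      Finset.univ) r) : 2 ^ Fintype.card E ≤ r := by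
  classical
  set cm := comp (fun x => (A x : F)) ρ (fun i u w c => (β i u w c : F)) with hcm
  let M : Matrix (E → Bool) (E → Bool) F := Matrix.of (cm f Finset.univ)
  let P : Matrix (E → Bool) (E → Bool) F := (Int.castRingHom F).mapMatrix (restZ ρ β A)
  have h1 : v (M.det - P.det) < 1 := by
    refine val_det_sub v M P (fun i j => val_int_le hv _) fun i j => ?_
    have h2 : M i j - P i j = cm (f - perX n F) Finset.univ i j := by
      rw [map_sub, SF.sub_def, Pi.sub_apply, Pi.sub_apply, hcm, comp_per_eq ρ hρ]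
      rfl
    rw [h2]
    exact comp_small hv ρ β A _ hf _ _ _
  have h2 : P.det = ((restZ ρ β A).det : F) := by
    rw [← RingHom.map_det]; rfl
  rw [eval_restM] at hA
  have h3 : (restZ ρ β A).det ≠ 0 := by
    intro h; rw [h, Int.cast_zero] at hA; exact hA rfl
  have h4 : v P.det = 1 := by rw [h2]; exact val_int_ne hv _ h3
  have h5 : M.det ≠ 0 := by
    intro h
    rw [h, zero_sub, Valuation.map_neg, h4] at h1
    exact lt_irrefl _ h1
  have h6 : M * M⁻¹ = 1 := Matrix.mul_nonsing_inv _ (isUnit_iff_ne_zero.2 h5)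
  have h7 := hr.lower (P := E → Bool) id id M⁻¹ (fun i j => by
    have h8 := congrFun (congrFun h6 i) j
    rw [Matrix.mul_apply, Matrix.one_apply] at h8
    exact h8)
  rw [Fintype.card_fun, Fintype.card_bool] at h7
  exact h7

end main

end Pool.Agent.Y531
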