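import Pool.Agent.Y531.Conv

/-!
# Sums over injections, row by row
-/

set_option autoImplicit false
set_option linter.unusedSectionVars false
set_option maxHeartbeats 1000000

namespace Pool.Agent.Y531

open Finset

variable {C : Type*} [Fintype C] [DecidableEq C]

/-- The sum, over the injections of the rows of the list into the columns outside `X`, of the
products of the entries. -/
def J : List (C → ℤ) → Finset C → ℤ
  | [], _ => 1
  | f :: L, X => ∑ c ∈ Xᶜ, f c * J L (insert c X)

theorem J_nil (X : Finset C) : J ([] : List (C → ℤ)) X = 1 := rfl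
theorem J_cons (f : C → ℤ) (L : List (C → ℤ)) (X : Finset C) :
    J (f :: L) X = ∑ c ∈ Xᶜ, f c * J L (insert c X) := rfl

theorem sum_inj_eq_J : ∀ (m : ℕ) (N : Fin m → C → ℤ) (X : Finset C),
    (∑ τ : Fin m → C, if Function.Injective τ ∧ ∀ r, τ r ∉ X then ∏ r, N r (τ r) else 0) =
      J (List.ofFn N) X := by
  intro m
  induction m with
  | zero =>
    intro N X
    rw [List.ofFn_zero, J_nil, Fintype.sum_unique, if_pos]
    · simp
    · exact ⟨fun i => i.elim0, fun i => i.elim0⟩
  | succ m ih =>
    intro N X
    rw [List.ofFn_succ, J_cons, ← (Fin.consEquiv fun _ => C).sum_comp, Fintype.sum_prod_type]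
    have h1 : ∀ c : C, (∑ τ : Fin m → C,
        if Function.Injective ((Fin.consEquiv fun _ => C) (c, τ)) ∧
          ∀ r, (Fin.consEquiv fun _ => C) (c, τ) r ∉ X then
          ∏ r, N r ((Fin.consEquiv fun _ => C) (c, τ) r) else 0) =
        if c ∈ Xᶜ then N 0 c * J (List.ofFn fun i => N (Fin.succ i)) (insert c X) else 0 := by
      intro c
      rw [← ih, Finset.mul_sum]
      by_cases hc : c ∈ X
      · rw [if_neg (by simpa using hc)]
        refine Finset.sum_eq_zero fun τ _ => ?_
        rw [if_neg]
        rintro ⟨_, h⟩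
        exact h 0 hc
      · rw [if_pos (by simpa using hc)]
        refine Finset.sum_congr rfl fun τ _ => ?_
        have h2 : (Function.Injective ((Fin.consEquiv fun _ => C) (c, τ)) ∧
            ∀ r, (Fin.consEquiv fun _ => C) (c, τ) r ∉ X) ↔
            (Function.Injective τ ∧ ∀ r, τ r ∉ insert c X) := by
          have h3 : ((Fin.consEquiv fun _ => C) (c, τ) : Fin (m + 1) → C) = Fin.cons c τ := rfl
          rw [h3]
          rw [Fin.cons_injective_iff]
          constructor
          · rintro ⟨⟨h4, h5⟩, h6⟩
            refine ⟨h5, fun r h7 => ?_⟩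
            rcases Finset.mem_insert.1 h7 with h8 | h8
            · exact h4 ⟨r, h8⟩
            · exact h6 r.succ (by rw [Fin.cons_succ]; exact h8)
          · rintro ⟨h4, h5⟩
            refine ⟨⟨?_, h4⟩, fun r => ?_⟩
            · rintro ⟨r, hr⟩
              exact h5 r (by rw [hr]; exact Finset.mem_insert_self c X)
            · refine Fin.cases ?_ (fun r => ?_) r
              · rw [Fin.cons_zero]; exact hc
              · rw [Fin.cons_succ]
                exact fun h => h5 r (Finset.mem_insert_of_mem h)
        by_cases h4 : (Function.Injective τ ∧ ∀ r, τ r ∉ insert c X)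
        · rw [if_pos (h2.2 h4), if_pos h4, Fin.prod_univ_succ]
          rfl
        · rw [if_neg (fun h => h4 (h2.1 h)), if_neg h4, mul_zero]
    rw [Finset.sum_congr rfl fun c _ => h1 c, ← Finset.sum_filter]
    refine Finset.sum_congr ?_ fun _ _ => rfl
    ext c
    simp

/-- The permanent, row by row. -/
theorem sum_perm_eq_J {n : ℕ} (N : Fin n → C → ℤ) (ψ : Fin n ≃ C) :
    ∑ σ : Equiv.Perm (Fin n), ∏ r, N r (ψ (σ r)) = J (List.ofFn N) ∅ := by
  rw [← sum_inj_eq_J, ← Finset.sum_filter]
  have hcard : Fintype.card C = n := by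
    rw [← Fintype.card_congr ψ, Fintype.card_fin]
  refine Finset.sum_bij' (fun σ _ => fun r => ψ (σ r))
    (fun τ hτ => (Equiv.ofBijective τ ((Fintype.bijective_iff_injective_and_card τ).2
      ⟨(Finset.mem_filter.1 hτ).2.1, by rw [Fintype.card_fin, hcard]⟩)).trans ψ.symm) ?_ ?_ ?_ ?_ ?_
  · intro σ _
    rw [Finset.mem_filter]
    exact ⟨Finset.mem_univ _, ψ.injective.comp σ.injective, fun r => Finset.notMem_empty _⟩
  · intro τ _
    exact Finset.mem_univ _
  · intro σ _
    ext r
    simp
  · intro τ hτ
    funext r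
    simp
  · intro σ _
    rfl

theorem J_ones : ∀ (k : ℕ) (X : Finset C), X.card + k = Fintype.card C →
    J (List.replicate k (fun _ => 1)) X = (k.factorial : ℤ) := by
  intro k
  induction k with
  | zero => intro X _; simp [J_nil]
  | succ k ih =>
    intro X hX
    rw [List.replicate_succ, J_cons]
    have h1 : ∀ c ∈ Xᶜ, (1:ℤ) * J (List.replicate k (fun _ => 1)) (insert c X) =
        (k.factorial : ℤ) := by
      intro c hc
      rw [one_mul, ih]
      rw [Finset.card_insert_of_notMem (Finset.mem_compl.1 hc)]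
      omega
    rw [Finset.sum_congr rfl h1, Finset.sum_const, Finset.card_compl, Nat.factorial_succ]
    have h2 : Fintype.card C - X.card = k + 1 := by omega
    rw [h2]
    simp

theorem J_append_ones (k : ℕ) : ∀ (L : List (C → ℤ)) (X : Finset C),
    X.card + L.length + k = Fintype.card C →
    J (L ++ List.replicate k (fun _ => 1)) X = (k.factorial : ℤ) * J L X := by
  intro L
  induction L with
  | nil =>
    intro X hX
    rw [List.nil_append, J_nil, mul_one]
    exact J_ones k X (by simpa using hX)
  | cons f L ih =>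
    intro X hX
    rw [List.cons_append, J_cons, J_cons, Finset.mul_sum]
    refine Finset.sum_congr rfl fun c hc => ?_
    rw [ih]
    · ring
    · rw [Finset.card_insert_of_notMem (Finset.mem_compl.1 hc)]
      rw [List.length_cons] at hX
      omega

section gen
variable {R : Type*} [Fintype R] [DecidableEq R] (φ : R → C → ℤ)

/-- The generating function of a column. -/
def eta (c : C) : SF R ℤ := ∑ r, SF.sgl {r} (φ r c)

/-- The generating function of the columns outside `X`. -/
def Gam (X : Finset C) : SF R ℤ := ∏ c ∈ Xᶜ, (1 + eta φ c)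

theorem eta_empty (c : C) : (eta φ c) ∅ = 0 := by
  rw [eta, SF.sum_apply]
  refine Finset.sum_eq_zero fun r _ => ?_
  rw [SF.sgl_apply, if_neg (Finset.singleton_ne_empty r).symm]

theorem eta_mul (c : C) (g : SF R ℤ) (M : Finset R) :
    (eta φ c * g : SF R ℤ) M = ∑ r ∈ M, φ r c * g (M.erase r) := by
  rw [eta, Finset.sum_mul, SF.sum_apply]
  rw [← Finset.sum_subset (Finset.subset_univ M)]
  · refine Finset.sum_congr rfl fun r hr => ?_
    rw [SF.sgl_mul_apply, if_pos (Finset.singleton_subset_iff.2 hr), Finset.sdiff_singleton_eq_erase]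
  · intro r _ hr
    rw [SF.sgl_mul_apply, if_neg (fun h => hr (Finset.singleton_subset_iff.1 h))]

theorem dd_one_add_eta (r : R) (c : C) : SF.dd r (1 + eta φ c) = SF.cst (φ r c) := by
  refine SF.ext' fun B => ?_
  by_cases hr : r ∈ B
  · rw [SF.dd_apply_of_mem hr, SF.cst_apply, if_neg (Finset.ne_empty_of_mem hr)]
  · rw [SF.dd_apply_of_notMem hr, SF.add_def, SF.one_def, if_neg (Finset.insert_ne_empty _ _),
      zero_add, eta, SF.sum_apply, SF.cst_apply, Finset.sum_eq_single r]
    · rw [SF.sgl_apply]
      by_cases hB : B = ∅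
      · subst hB; simp
      · rw [if_neg hB, if_neg]
        intro h
        apply hB
        obtain ⟨x, hx⟩ := Finset.nonempty_iff_ne_empty.2 hB
        have : x ∈ ({r} : Finset R) := h ▸ Finset.mem_insert_of_mem hx
        rw [Finset.mem_singleton] at this
        exact absurd (this ▸ hx) hr
    · intro s _ hs
      rw [SF.sgl_apply, if_neg]
      intro h
      have : r ∈ ({s} : Finset R) := h ▸ Finset.mem_insert_self r B
      exact hs (Finset.mem_singleton.1 this).symm
    · intro h
      exact absurd (Finset.mem_univ r) h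

theorem Gam_empty (X : Finset C) : Gam φ X ∅ = 1 := by
  have h1 : Gam φ X ∅ = SF.ev0 (Gam φ X) := rfl
  rw [h1, Gam, map_prod]
  refine Finset.prod_eq_one fun c _ => ?_
  rw [map_add, map_one, SF.ev0_apply, eta_empty, add_zero]

/-- The row recursion. -/
theorem Gam_insert (X : Finset C) {r : R} {M : Finset R} (hr : r ∉ M) :
    Gam φ X (insert r M) = ∑ c ∈ Xᶜ, φ r c * Gam φ (insert c X) M := by
  rw [← SF.dd_apply_of_notMem hr (Gam φ X), Gam, SF.dd_prod, SF.sum_apply]
  refine Finset.sum_congr rfl fun c hc => ?_
  have h1 : Xᶜ.erase c = (insert c X)ᶜ := by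
    ext x
    rw [Finset.mem_erase, Finset.mem_compl, Finset.mem_compl, Finset.mem_insert, not_or]
  rw [dd_one_add_eta, SF.cst_mul_apply, SF.sg_apply_of_notMem hr, Gam, h1]

theorem J_coupling : ∀ (l : List R), l.Nodup → ∀ X : Finset C, J (l.map φ) X = Gam φ X l.toFinset := by
  intro l
  induction l with
  | nil => intro _ X; rw [List.map_nil, J_nil, List.toFinset_nil, Gam_empty]
  | cons r l ih =>
    intro hl X
    rw [List.nodup_cons] at hl
    rw [List.map_cons, J_cons, List.toFinset_cons, Gam_insert φ X (by simpa using hl.1)]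
    refine Finset.sum_congr rfl fun c _ => ?_
    rw [ih hl.2]

/-- The inverse of `1 + eta`. -/
def the (c : C) : SF R ℤ := fun M => (-1) ^ M.card * (M.card.factorial : ℤ) * ∏ r ∈ M, φ r c

theorem the_apply (c : C) (M : Finset R) :
    the φ c M = (-1) ^ M.card * (M.card.factorial : ℤ) * ∏ r ∈ M, φ r c := rfl

theorem eta_the (c : C) : (1 + eta φ c) * the φ c = 1 := by
  refine SF.ext' fun M => ?_
  rw [add_mul, one_mul, SF.add_def, eta_mul, SF.one_def]
  by_cases hM : M = ∅
  · subst hM; simp [the_apply]
  · rw [if_neg hM, the_apply]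
    have hpos : 0 < M.card := Finset.card_pos.2 (Finset.nonempty_iff_ne_empty.2 hM)
    obtain ⟨k, hk⟩ := Nat.exists_eq_add_of_le' (Nat.succ_le_of_lt hpos)
    have h1 : ∀ r ∈ M, φ r c * the φ c (M.erase r) =
        (-1) ^ k * (k.factorial : ℤ) * ∏ r ∈ M, φ r c := by
      intro r hr
      rw [the_apply, Finset.card_erase_of_mem hr, ← Finset.mul_prod_erase M _ hr]
      have : M.card - 1 = k := by omega
      rw [this]
      ring
    rw [Finset.sum_congr rfl h1, Finset.sum_const, hk, Nat.succ_eq_add_one, Nat.factorial_succ]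
    rw [nsmul_eq_mul, pow_succ]
    push_cast
    ring

theorem Gam_insert_the (X : Finset C) {c : C} (hc : c ∉ X) :
    Gam φ (insert c X) = Gam φ X * the φ c := by
  have h1 : Gam φ X = (1 + eta φ c) * Gam φ (insert c X) := by
    rw [Gam, Gam, ← Finset.mul_prod_erase Xᶜ _ (Finset.mem_compl.2 hc)]
    congr 2
    ext x
    rw [Finset.mem_erase, Finset.mem_compl, Finset.mem_compl, Finset.mem_insert, not_or]
  rw [h1, mul_right_comm, eta_the, one_mul]

/-- The transform of a labelled row. -/
def Tht (x : C → ℤ) : SF R ℤ := ∑ c, SF.cst (x c) * the φ c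

/-- Labelled rows with disjoint supports. -/
theorem J_labelled : ∀ (xs : List (C → ℤ)) (X : Finset C),
    xs.Pairwise (fun x y => ∀ c, x c = 0 ∨ y c = 0) → (∀ x ∈ xs, ∀ c ∈ X, x c = 0) →
    J (xs ++ (Finset.univ : Finset R).toList.map φ) X =
      (Gam φ X * (xs.map (Tht φ)).prod : SF R ℤ) Finset.univ := by
  intro xs
  induction xs with
  | nil =>
    intro X _ _
    rw [List.nil_append, List.map_nil, List.prod_nil, mul_one,
      J_coupling φ _ (Finset.nodup_toList _), Finset.toList_toFinset]
  | cons x xs ih =>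
    intro X hp hX
    rw [List.pairwise_cons] at hp
    rw [List.cons_append, J_cons, List.map_cons, List.prod_cons]
    have h1 : ∀ c ∈ Xᶜ, x c * J (xs ++ (Finset.univ : Finset R).toList.map φ) (insert c X) =
        (Gam φ X * (SF.cst (x c) * the φ c * (xs.map (Tht φ)).prod) : SF R ℤ) Finset.univ := by
      intro c hc
      by_cases hx : x c = 0
      · rw [hx, zero_mul, map_zero, zero_mul, zero_mul, mul_zero]
        rfl
      · rw [ih (insert c X) hp.2, Gam_insert_the φ X (Finset.mem_compl.1 hc), ← SF.cst_mul_apply]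
        · have h2 : SF.cst (x c) * (Gam φ X * the φ c * (xs.map (Tht φ)).prod) =
              Gam φ X * (SF.cst (x c) * the φ c * (xs.map (Tht φ)).prod) := by ring
          rw [h2]
        · intro y hy c' hc'
          rcases Finset.mem_insert.1 hc' with h | h
          · subst h
            exact (hp.1 y hy c').resolve_left hx
          · exact hX y (List.mem_cons_of_mem x hy) c' h
    have h2 : Tht φ x = ∑ c ∈ Xᶜ, SF.cst (x c) * the φ c := by
      rw [Tht]
      symm
      refine Finset.sum_subset (Finset.subset_univ (Xᶜ)) fun c _ hc => ?_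
      have : c ∈ X := by simpa using hc
      rw [hX x List.mem_cons_self c this, map_zero, zero_mul]
    rw [Finset.sum_congr rfl h1, h2, ← SF.sum_apply, ← Finset.mul_sum, ← Finset.sum_mul]

end gen

end Pool.Agent.Y531
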