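import Pool.Agent.Y531.Core

/-!
# Relative rank of the coefficients of long products: logarithmic derivatives
-/

set_option autoImplicit false
set_option linter.unusedSectionVars false

namespace Pool.Agent.Y531

open Finset MvPolynomial Pool.Agent.W942

variable {F : Type*} [Field F] {U V ι : Type*} [DecidableEq ι]

/-- `L` is a logarithmic derivative of `f` in the direction `i`. -/
def LD (i : ι) (f L : SF ι (U → V → F)) : Prop := SF.dd i f = L * SF.sg i f

theorem sg_one (i : ι) : SF.sg i (1 : SF ι (U → V → F)) = 1 := by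
  ext B
  by_cases h : i ∈ B
  · rw [SF.sg_apply_of_mem h, SF.one_def, if_neg (Finset.ne_empty_of_mem h)]
  · rw [SF.sg_apply_of_notMem h]

theorem LD.one (i : ι) : LD i (1 : SF ι (U → V → F)) 0 := by
  have h := SF.dd_algebraMap (R := U → V → F) i (1 : F)
  rw [map_one] at h
  rw [LD, h, zero_mul]

theorem LD.mul {i : ι} {f g L M : SF ι (U → V → F)} (hf : LD i f L) (hg : LD i g M) :
    LD i (f * g) (L + M) := by
  rw [LD] at *
  rw [SF.dd_mul, SF.sg_mul, hf, hg]
  ring

theorem LD.pow {i : ι} {f L : SF ι (U → V → F)} (hf : LD i f L) (e : ℕ) :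
    LD i (f ^ e) ((e : F) • L) := by
  induction e with
  | zero => rw [pow_zero, Nat.cast_zero, zero_smul]; exact LD.one i
  | succ e ih =>
    rw [pow_succ, Nat.cast_succ, add_smul, one_smul]
    exact ih.mul hf

theorem LD.prod {i : ι} {J : Type*} (s : Finset J) {f L : J → SF ι (U → V → F)}
    (h : ∀ j ∈ s, LD i (f j) (L j)) : LD i (∏ j ∈ s, f j) (∑ j ∈ s, L j) := by
  classical
  induction s using Finset.induction_on with
  | empty => rw [Finset.prod_empty, Finset.sum_empty]; exact LD.one i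
  | insert a s ha ih =>
    rw [Finset.prod_insert ha, Finset.sum_insert ha]
    exact (h a (Finset.mem_insert_self a s)).mul (ih fun j hj => h j (Finset.mem_insert_of_mem hj))

theorem exists_LD [Fintype ι] (i : ι) (f : SF ι (U → V → F)) {c : F} (hc : c ≠ 0)
    (hf : f ∅ = algebraMap F (U → V → F) c) : ∃ L, LD i f L := by
  have h1 : IsUnit (SF.sg i f) := by
    apply SF.isUnit_of_apply_empty
    rw [SF.sg_apply_of_notMem (Finset.notMem_empty i), hf]
    exact (isUnit_iff_ne_zero.2 hc).map _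
  obtain ⟨w, hw⟩ := h1.exists_right_inv
  refine ⟨SF.dd i f * w, ?_⟩
  rw [LD, mul_assoc, mul_comm w, hw, mul_one]

section
variable {Φ : Frame ι U V} {z X : ℝ} {T : ℕ}

theorem GoodAt.bd {B : Finset ι} {k : U → V → F} (ht : Triv F Φ) (hz0 : 0 ≤ z) (hz1 : z ≤ 1)
    (hX : 0 ≤ X) (hs : Scale F Φ T z) (hk : GoodAt Φ T X B k) (hB : B.Nonempty) :
    Bd Φ z X 1 B k := by
  have h1 := Bd.block ht hz0 hz1 hX hs hk hB (Finset.disjoint_empty_right B)
    (Bd.const (z := z) (X := X) ht (Frame.Loc.algebraMap (F := F) ∅ 1)) le_rfl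
  rw [map_one, mul_one, Finset.union_empty] at h1
  exact h1

theorem Bd.neg {N : ℝ} {S : Finset ι} {g : U → V → F} (h : Bd Φ z X N S g) :
    Bd Φ z X N S (-g) := by
  have := h.smul (-1)
  rwa [neg_one_smul] at this

/-- The logarithmic derivative of a good function. -/
theorem LD.bd (ht : Triv F Φ) (hz0 : 0 ≤ z) (hz1 : z ≤ 1) (hX : 0 ≤ X) (hs : Scale F Φ T z)
    {i : ι} {f L : SF ι (U → V → F)} (hf : Good Φ T X f) {c : F} (hc : c ≠ 0)
    (hf0 : f ∅ = algebraMap F (U → V → F) c) (hL : LD i f L) :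
    ∀ (n : ℕ) (B : Finset ι), B.card = n → i ∉ B → Bd Φ z X (2 ^ (n ^ 2)) (insert i B) (L B) := by
  intro n
  induction n using Nat.strong_induction_on with
  | _ n ih =>
    intro B hB hi
    have h1 : L B = c⁻¹ • (f (insert i B) + ∑ C ∈ B.powerset.erase ∅, -(f C * L (B \ C))) := by
      have h2 : f (insert i B) = ∑ C ∈ B.powerset, f C * L (B \ C) := by
        rw [← SF.dd_apply_of_notMem hi f, hL, mul_comm, SF.mul_def]
        refine Finset.sum_congr rfl fun C hC => ?_
        rw [Finset.mem_powerset] at hC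
        rw [SF.sg_apply_of_notMem (fun h => hi (hC h))]
      rw [← Finset.add_sum_erase _ _ (Finset.empty_mem_powerset B), hf0, Finset.sdiff_empty] at h2
      rw [h2, Finset.sum_neg_distrib, add_neg_cancel_right, ← Algebra.smul_def, smul_smul,
        inv_mul_cancel₀ hc, one_smul]
    rw [h1]
    refine Bd.smul ?_ _
    have h2 : Bd Φ z X (1 + ∑ _C ∈ B.powerset.erase ∅, (2 ^ ((n - 1) ^ 2) : ℝ)) (insert i B)
        (f (insert i B) + ∑ C ∈ B.powerset.erase ∅, -(f C * L (B \ C))) := by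
      refine ((hf (insert i B)).bd ht hz0 hz1 hX hs (Finset.insert_nonempty i B)).add
        (Bd.sum _ fun C hC => Bd.neg ?_)
      rw [Finset.mem_erase, Finset.mem_powerset] at hC
      have hCn : C.Nonempty := Finset.nonempty_iff_ne_empty.2 hC.1
      have hcard : (B \ C).card + C.card = B.card := Finset.card_sdiff_add_card_eq_card hC.2
      have hCp : 0 < C.card := Finset.card_pos.2 hCn
      have h3 := ih (B \ C).card (by omega) (B \ C) rfl (fun h => hi (Finset.mem_sdiff.1 h).1)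
      have h4 : Bd Φ z X (2 ^ ((n - 1) ^ 2)) (insert i (B \ C)) (L (B \ C)) := by
        refine h3.mono hX (pow_le_pow_right₀ (by norm_num) (Nat.pow_le_pow_left (by omega) 2))
      have h5 := Bd.block ht hz0 hz1 hX hs (hf C) hCn (S := insert i (B \ C)) (by
        rw [Finset.disjoint_left]
        intro x hx hx'
        rcases Finset.mem_insert.1 hx' with h | h
        · exact hi (h ▸ hC.2 hx)
        · exact (Finset.mem_sdiff.1 h).2 hx) h4 (one_le_pow₀ (by norm_num))
      have h6 : C ∪ insert i (B \ C) = insert i B := by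
        rw [Finset.union_insert, Finset.union_sdiff_of_subset hC.2]
      rw [h6] at h5
      exact h5
    refine h2.mono hX ?_
    rw [Finset.sum_const, Finset.card_erase_of_mem (Finset.empty_mem_powerset B),
      Finset.card_powerset, hB]
    by_cases hn : n = 0
    · subst hn; simp
    · simp only [nsmul_eq_mul]
      rw [Nat.cast_sub Nat.one_le_two_pow]
      push_cast
      have h3 : (1:ℝ) ≤ 2 ^ ((n - 1) ^ 2) := one_le_pow₀ (by norm_num)
      have h4 : (2:ℝ) ^ n * 2 ^ ((n - 1) ^ 2) ≤ 2 ^ (n ^ 2) := by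
        rw [← pow_add]
        refine pow_le_pow_right₀ (by norm_num) ?_
        obtain ⟨k, rfl⟩ := Nat.exists_eq_add_of_le' (Nat.one_le_iff_ne_zero.2 hn)
        simp only [Nat.add_sub_cancel]
        nlinarith
      nlinarith

/-- A function with good logarithmic derivatives. -/
theorem bd_of_LD (ht : Triv F Φ) (hz0 : 0 ≤ z) (hz1 : z ≤ 1) (hX : 0 ≤ X) (hs : Scale F Φ T z)
    {G : SF ι (U → V → F)} (hG : Φ.Loc ∅ (G ∅)) (L : ι → SF ι (U → V → F))
    (hL : ∀ i, LD i G (L i)) (hgood : ∀ i B, i ∉ B → GoodAt Φ T X (insert i B) (L i B)) :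
    ∀ (n : ℕ) (S : Finset ι), S.card = n → Bd Φ z X (2 ^ (n ^ 2)) S (G S) := by
  intro n
  induction n using Nat.strong_induction_on with
  | _ n ih =>
    intro S hS
    by_cases hn : n = 0
    · subst hn
      rw [Finset.card_eq_zero] at hS
      subst hS
      have h2 := Bd.const (z := z) (X := X) ht hG
      simpa using h2
    · obtain ⟨i, hi⟩ : S.Nonempty := Finset.card_pos.1 (by omega)
      set B := S.erase i with hB
      have hiB : i ∉ B := Finset.notMem_erase i S
      have hSB : insert i B = S := Finset.insert_erase hi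
      have hBc : B.card = n - 1 := by rw [hB, Finset.card_erase_of_mem hi, hS]
      have h1 : G S = ∑ C ∈ B.powerset, L i C * G (B \ C) := by
        rw [← hSB, ← SF.dd_apply_of_notMem hiB G, hL i, SF.mul_def]
        refine Finset.sum_congr rfl fun C _ => ?_
        rw [SF.sg_apply_of_notMem (fun h => hiB (Finset.mem_sdiff.1 h).1)]
      rw [h1]
      have h2 : Bd Φ z X (∑ _C ∈ B.powerset, (2 ^ ((n - 1) ^ 2) : ℝ)) S
          (∑ C ∈ B.powerset, L i C * G (B \ C)) := by
        refine Bd.sum _ fun C hC => ?_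
        rw [Finset.mem_powerset] at hC
        have hc1 : (B \ C).card ≤ n - 1 := (Finset.card_le_card Finset.sdiff_subset).trans hBc.le
        have h3 := ih (B \ C).card (by omega) (B \ C) rfl
        have h4 : Bd Φ z X (2 ^ ((n - 1) ^ 2)) (B \ C) (G (B \ C)) :=
          h3.mono hX (pow_le_pow_right₀ (by norm_num) (Nat.pow_le_pow_left hc1 2))
        have h5 := Bd.block ht hz0 hz1 hX hs (hgood i C (fun h => hiB (hC h)))
          (Finset.insert_nonempty i C) (S := B \ C) (by
            rw [Finset.disjoint_left]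
            intro x hx hx'
            rw [Finset.mem_sdiff] at hx'
            rcases Finset.mem_insert.1 hx with h | h
            · exact hiB (h ▸ hx'.1)
            · exact hx'.2 h) h4 (one_le_pow₀ (by norm_num))
        have h6 : insert i C ∪ B \ C = S := by
          rw [Finset.insert_union, Finset.union_sdiff_of_subset hC, hSB]
        rw [h6] at h5
        exact h5
      refine h2.mono hX ?_
      rw [Finset.sum_const, Finset.card_powerset, hBc]
      simp only [nsmul_eq_mul, Nat.cast_pow, Nat.cast_ofNat]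
      exact count_le n (by omega)

/-- **Long products of powers.** -/
theorem prod_good [Fintype ι] (ht : Triv F Φ) {T T' T'' : ℕ} {z z' X ϑ : ℝ}
    (hz0 : 0 ≤ z) (hz1 : z ≤ 1) (hz0' : 0 ≤ z') (hz1' : z' ≤ 1) (hϑ : 0 ≤ ϑ) (hX : ϑ ≤ X)
    (hs : Scale F Φ T z) (hs' : Scale F Φ T' z') (hT' : z ^ T' ≤ ϑ) (hT'' : z' ^ T'' ≤ ϑ)
    {J : Type*} (s : Finset J) (hJ : s.Nonempty) (f : J → SF ι (U → V → F)) (e : J → ℕ)
    (hf : ∀ j ∈ s, Good Φ T X (f j))
    (hf0 : ∀ j ∈ s, ∃ c : F, c ≠ 0 ∧ f j ∅ = algebraMap F (U → V → F) c) :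
    Good Φ T'' ((s.card : ℝ) * 2 ^ (2 * Fintype.card ι ^ 2) * X) (∏ j ∈ s, f j ^ e j) := by
  classical
  have hX0 : 0 ≤ X := hϑ.trans hX
  have hL : ∀ (i : ι) (j : J), ∃ L, j ∈ s → LD i (f j) L := by
    intro i j
    by_cases hj : j ∈ s
    · obtain ⟨c, hc, hc'⟩ := hf0 j hj
      obtain ⟨L, hL⟩ := exists_LD i (f j) hc hc'
      exact ⟨L, fun _ => hL⟩
    · exact ⟨0, fun h => absurd h hj⟩
  choose L hL using hL
  set X' : ℝ := (s.card : ℝ) * 2 ^ (Fintype.card ι ^ 2) * X with hX'
  have hs1 : (1:ℝ) ≤ s.card := by exact_mod_cast hJ.card_pos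
  have hXX' : X ≤ X' := by
    refine le_mul_of_one_le_left hX0 ?_
    exact one_le_mul_of_one_le_of_one_le hs1 (one_le_pow₀ (by norm_num))
  have h1 : ∀ i, LD i (∏ j ∈ s, f j ^ e j) (∑ j ∈ s, (e j : F) • L i j) := fun i =>
    LD.prod s fun j hj => (hL i j hj).pow (e j)
  have h2 : ∀ i B, i ∉ B → GoodAt Φ T' X' (insert i B) ((∑ j ∈ s, (e j : F) • L i j) B) := by
    intro i B hi
    rw [SF.sum_apply]
    have h3 : Bd Φ z X (∑ _j ∈ s, (2 ^ (Fintype.card ι ^ 2) : ℝ)) (insert i B)
        (∑ j ∈ s, ((e j : F) • L i j : SF ι (U → V → F)) B) := by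
      refine Bd.sum s fun j hj => ?_
      obtain ⟨c, hc, hc'⟩ := hf0 j hj
      rw [SF.smul_apply]
      refine Bd.smul ?_ _
      have h4 := LD.bd ht hz0 hz1 hX0 hs (hf j hj) hc hc' (hL i j hj) B.card B rfl hi
      refine h4.mono hX0 (pow_le_pow_right₀ (by norm_num) (Nat.pow_le_pow_left ?_ 2))
      exact Finset.card_le_univ B
    refine h3.goodAt hz0 hz1 (hT'.trans hX) ?_
    rw [Finset.sum_const, nsmul_eq_mul]
  have hG0 : Φ.Loc ∅ ((∏ j ∈ s, f j ^ e j : SF ι (U → V → F)) ∅) := by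
    have h3 : LocF Φ (∏ j ∈ s, f j ^ e j) := by
      refine Finset.prod_induction _ (LocF Φ) (fun _ _ => LocF.mul) ?_ ?_
      · have := LocF.algebraMap (Φ := Φ) (1 : F)
        rwa [map_one] at this
      · intro j hj
        have h4 : ∀ n : ℕ, LocF Φ (f j ^ n) := by
          intro n
          induction n with
          | zero =>
            rw [pow_zero]
            have := LocF.algebraMap (Φ := Φ) (1 : F)
            rwa [map_one] at this
          | succ n ih => rw [pow_succ]; exact ih.mul fun S => (hf j hj S).1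
        exact h4 _
    exact h3 ∅
  intro S
  have h3 := bd_of_LD ht hz0' hz1' (hX0.trans hXX') hs' hG0 _ h1 h2 S.card S rfl
  refine h3.goodAt hz0' hz1' (hT''.trans (hX.trans hXX')) ?_
  calc (2:ℝ) ^ (S.card ^ 2) * X' ≤ 2 ^ (Fintype.card ι ^ 2) * X' := by
        have : (2:ℝ) ^ (S.card ^ 2) ≤ 2 ^ (Fintype.card ι ^ 2) :=
          pow_le_pow_right₀ (by norm_num) (Nat.pow_le_pow_left (Finset.card_le_univ S) 2)
        have h5 : 0 ≤ X' := hX0.trans hXX'
        gcongr
    _ = _ := by rw [hX']; ring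

/-- **Composition with a polynomial in few arguments.** -/
theorem poly_good [Fintype ι] (ht : Triv F Φ) {T T' : ℕ} {z X ϑ : ℝ}
    (hz0 : 0 ≤ z) (hz1 : z ≤ 1) (hϑ : 0 ≤ ϑ) (hX : ϑ ≤ X)
    (hs : Scale F Φ T z) (hT' : z ^ T' ≤ ϑ)
    {J : Type*} [Fintype J] [DecidableEq J] (f : J → SF ι (U → V → F))
    (hf : ∀ j, Good Φ T X (f j)) (m : ℝ) (hm : 1 ≤ m) (hJ : (Fintype.card J : ℝ) ≤ m)
    (P : MvPolynomial J F) :
    Good Φ T' (m ^ Fintype.card ι * 2 ^ (Fintype.card ι ^ 2) * X) (aeval f P) := by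
  have hX0 : 0 ≤ X := hϑ.trans hX
  intro S
  have h3 := poly_bd ht hz0 hz1 hX0 hs f hf m hm hJ S.card S rfl P
  refine h3.goodAt hz0 hz1 (hT'.trans hX) ?_
  have h4 : (2:ℝ) ^ (S.card ^ 2) ≤ 2 ^ (Fintype.card ι ^ 2) :=
    pow_le_pow_right₀ (by norm_num) (Nat.pow_le_pow_left (Finset.card_le_univ S) 2)
  have h5 : m ^ S.card ≤ m ^ Fintype.card ι := pow_le_pow_right₀ hm (Finset.card_le_univ S)
  have h6 : 0 ≤ m := zero_le_one.trans hm
  gcongr

end

end Pool.Agent.Y531
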